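import Pool.Agent.H24.Lib.R_seed8.R92.Star.Three

set_option autoImplicit false
set_option linter.unusedSectionVars false

/-! The inequality for general unimodal laws and for pairs. -/

namespace Pool.Agent.R92.Star

open H112 Finset

theorem coeff_mix (u v : AddMonoidAlgebra ℝ ℤ) (a b : ℝ) (t : ℤ) :
    (a • u + b • v).coeff t = a * u.coeff t + b * v.coeff t := by
  simp

theorem supp_mix (u v : AddMonoidAlgebra ℝ ℤ) (a b : ℝ) :
    (a • u + b • v).coeff.support ⊆ u.coeff.support ∪ v.coeff.support := by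
  intro t ht
  rw [Finsupp.mem_support_iff, coeff_mix] at ht
  rw [Finset.mem_union, Finsupp.mem_support_iff, Finsupp.mem_support_iff]
  by_contra hc
  push Not at hc
  apply ht
  rw [hc.1, hc.2]; ring

theorem H_concave {u v : AddMonoidAlgebra ℝ ℤ} (hu : Law u) (hv : Law v) {a b : ℝ} (ha : 0 ≤ a)
    (hb : 0 ≤ b) (hab : a + b = 1) : a * H u + b * H v ≤ H (a • u + b • v) := by
  rw [H_eq_of (supp_mix u v a b), H_eq_of (p := u) Finset.subset_union_left,
    H_eq_of (p := v) Finset.subset_union_right, Finset.mul_sum, Finset.mul_sum,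
    ← Finset.sum_add_distrib]
  apply Finset.sum_le_sum
  intro t _
  rw [coeff_mix]
  have h := Real.concaveOn_negMulLog.2 (show u.coeff t ∈ Set.Ici (0 : ℝ) from hu.1 t)
    (show v.coeff t ∈ Set.Ici (0 : ℝ) from hv.1 t) ha hb hab
  simpa only [smul_eq_mul] using h

theorem negMulLog_add_le {x y : ℝ} (hx : 0 ≤ x) (hy : 0 ≤ y) :
    Real.negMulLog (x + y) ≤ Real.negMulLog x + Real.negMulLog y := by
  rcases hx.eq_or_lt with h | h
  · rw [← h, zero_add, Real.negMulLog_zero, zero_add]
  rcases hy.eq_or_lt with h' | h'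
  · rw [← h', add_zero, Real.negMulLog_zero, add_zero]
  unfold Real.negMulLog
  have h1 : Real.log x ≤ Real.log (x + y) := Real.log_le_log h (by linarith)
  have h2 : Real.log y ≤ Real.log (x + y) := Real.log_le_log h' (by linarith)
  nlinarith

theorem negMulLog_le_one_sub {a : ℝ} (ha : 0 ≤ a) : Real.negMulLog a ≤ 1 - a := by
  rcases ha.eq_or_lt with h | h
  · rw [← h, Real.negMulLog_zero]; norm_num
  have := Real.log_le_sub_one_of_pos (show 0 < 1 / a by positivity)
  rw [Real.log_div one_ne_zero h.ne', Real.log_one] at this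
  unfold Real.negMulLog
  have h2 : a * (0 - Real.log a) ≤ a * (1 / a - 1) := mul_le_mul_of_nonneg_left this h.le
  have h3 : a * (1 / a - 1) = 1 - a := by field_simp
  linarith

theorem H_mix_le {u v : AddMonoidAlgebra ℝ ℤ} (hu : Law u) (hv : Law v) {a b : ℝ} (ha : 0 ≤ a)
    (hb : 0 ≤ b) (hab : a + b = 1) : H (a • u + b • v) ≤ a * H u + b * H v + 1 := by
  classical
  set S := u.coeff.support ∪ v.coeff.support with hS
  have hsu : ∑ t ∈ S, u.coeff t = 1 := by
    rw [← hu.sum_eq]; symm
    apply Finset.sum_subset Finset.subset_union_left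
    intro x _ hx; exact Finsupp.notMem_support_iff.mp hx
  have hsv : ∑ t ∈ S, v.coeff t = 1 := by
    rw [← hv.sum_eq]; symm
    apply Finset.sum_subset Finset.subset_union_right
    intro x _ hx; exact Finsupp.notMem_support_iff.mp hx
  have h1 : H (a • u + b • v) ≤ ∑ t ∈ S, (u.coeff t * Real.negMulLog a + a * Real.negMulLog (u.coeff t)
      + (v.coeff t * Real.negMulLog b + b * Real.negMulLog (v.coeff t))) := by
    rw [H_eq_of (supp_mix u v a b)]
    apply Finset.sum_le_sum
    intro t _
    rw [coeff_mix]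
    refine (negMulLog_add_le (mul_nonneg ha (hu.1 t)) (mul_nonneg hb (hv.1 t))).trans ?_
    rw [Real.negMulLog_mul, Real.negMulLog_mul]
  refine h1.trans ?_
  rw [Finset.sum_add_distrib, Finset.sum_add_distrib, Finset.sum_add_distrib, ← Finset.sum_mul,
    ← Finset.sum_mul, ← Finset.mul_sum, ← Finset.mul_sum, hsu, hsv,
    ← H_eq_of (p := u) Finset.subset_union_left, ← H_eq_of (p := v) Finset.subset_union_right]
  have h2 := negMulLog_le_one_sub ha
  have h3 := negMulLog_le_one_sub hb
  linarith

theorem EL_eq_of {p : AddMonoidAlgebra ℝ ℤ} {S : Finset ℤ} (hS : p.coeff.support ⊆ S) :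
    EL p = ∑ t ∈ S, p.coeff t * Real.log (|(t : ℝ)| + 1) := by
  unfold EL Finsupp.sum
  apply Finset.sum_subset hS
  intro x _ hx
  rw [Finsupp.notMem_support_iff.mp hx]
  exact zero_mul _

theorem EL_mix (u v : AddMonoidAlgebra ℝ ℤ) (a b : ℝ) :
    EL (a • u + b • v) = a * EL u + b * EL v := by
  rw [EL_eq_of (supp_mix u v a b), EL_eq_of (p := u) Finset.subset_union_left,
    EL_eq_of (p := v) Finset.subset_union_right, Finset.mul_sum, Finset.mul_sum,
    ← Finset.sum_add_distrib]
  apply Finset.sum_congr rfl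
  intro t _
  rw [coeff_mix]; ring

/-- reflection about `-1/2` -/
noncomputable def flip (p : AddMonoidAlgebra ℝ ℤ) : AddMonoidAlgebra ℝ ℤ :=
  AddMonoidAlgebra.ofCoeff (p.coeff.mapDomain fun t => -1 - t)

theorem flip_inj : Function.Injective (fun t : ℤ => -1 - t) := by
  intro a b h
  simp only at h
  omega

theorem flip_apply (p : AddMonoidAlgebra ℝ ℤ) (t : ℤ) : (flip p).coeff t = p.coeff (-1 - t) := by
  unfold flip
  rw [AddMonoidAlgebra.coeff_ofCoeff]
  have h : t = -1 - (-1 - t) := by ring
  conv_lhs => rw [h]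
  exact Finsupp.mapDomain_apply flip_inj _ _

theorem law_flip {p : AddMonoidAlgebra ℝ ℤ} (hp : Law p) : Law (flip p) := by
  unfold Law flip
  exact isLaw_mapDomain hp _

theorem H_flip (p : AddMonoidAlgebra ℝ ℤ) : H (flip p) = H p := by
  unfold H flip
  exact ent_mapDomain_of_injOn _ flip_inj.injOn

theorem sg_flip (p : AddMonoidAlgebra ℝ ℤ) : sg (flip p) = sg p := by
  unfold sg
  rw [H_flip]
  congr 1
  have h1 : (flip p * flip p).coeff = ((p * p).coeff).mapDomain (fun t => -2 - t) := by
    rw [coeff_mul, coeff_mul]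
    unfold flip
    rw [AddMonoidAlgebra.coeff_ofCoeff, ← Conv_mapDomain_prodLaw, ← Finsupp.mapDomain_comp,
      ← Finsupp.mapDomain_comp]
    congr 1
    funext x
    simp only [Function.comp, Prod.map]
    ring
  unfold H
  rw [h1]
  apply ent_mapDomain_of_injOn
  intro a _ b _ h
  have h' : -2 - a = -2 - b := h
  omega

theorem LL_le_left {p : AddMonoidAlgebra ℝ ℤ} (hp : Law p)
    (hmono : ∀ s t : ℤ, t ≤ s → s < 0 → p.coeff t ≤ p.coeff s)
    (hneg : ∀ t : ℤ, 0 ≤ t → p.coeff t = 0) : LL p ≤ 4 * sg p + 14 := by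
  classical
  have h1 := LL_le_one (law_flip hp)
    (fun s t hs hst => by
      rw [flip_apply, flip_apply]
      exact hmono _ _ (by omega) (by omega))
    (fun t ht => by
      rw [flip_apply]
      exact hneg _ (by omega))
  rw [sg_flip] at h1
  have h2 : EL (flip p) ≤ EL p := by
    have e1 : EL (flip p) = ∑ t ∈ p.coeff.support, p.coeff t * Real.log (|((-1 - t : ℤ) : ℝ)| + 1) := by
      unfold EL flip
      rw [AddMonoidAlgebra.coeff_ofCoeff, Finsupp.sum_mapDomain_index]
      · rfl
      · intro b; simp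
      · intro b m₁ m₂; ring
    rw [e1]
    unfold EL Finsupp.sum
    apply Finset.sum_le_sum
    intro t ht
    apply mul_le_mul_of_nonneg_left _ (hp.1 t)
    have ht0 : t < 0 := by
      by_contra hc
      exact Finsupp.mem_support_iff.mp ht (hneg t (by omega))
    apply Real.log_le_log
    · positivity
    · have h3 : |(-1 - t : ℤ)| ≤ |t| := by
        rw [abs_of_nonneg (by omega), abs_of_neg ht0]
        omega
      have h4 : |((-1 - t : ℤ) : ℝ)| ≤ |(t : ℝ)| := by exact_mod_cast h3
      linarith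
  unfold LL at h1 ⊢
  rw [H_flip] at h1
  linarith

theorem LL_le_two {p : AddMonoidAlgebra ℝ ℤ} (hp : Law p) (hu : Uni p) :
    LL p ≤ 8 * sg p + 24 := by
  classical
  set b := ∑ t ∈ p.coeff.support.filter (fun t => ¬ 0 ≤ t), p.coeff t with hb
  set a := ∑ t ∈ p.coeff.support.filter (fun t => 0 ≤ t), p.coeff t with ha
  have hab : a + b = 1 := by
    rw [ha, hb, Finset.sum_filter_add_sum_filter_not, hp.sum_eq]
  have hb0 : 0 ≤ b := Finset.sum_nonneg fun t _ => hp.1 t
  have hsgp := sg_nonneg hp
  rcases hb0.eq_or_lt with hbz | hbpos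
  · have hz : ∀ t : ℤ, t < 0 → p.coeff t = 0 := by
      intro t ht
      by_contra hc
      have hm : t ∈ p.coeff.support.filter (fun t => ¬ 0 ≤ t) := by
        rw [Finset.mem_filter]
        exact ⟨Finsupp.mem_support_iff.mpr hc, by omega⟩
      have h1 := Finset.single_le_sum (f := fun t => p.coeff t) (fun t _ => hp.1 t) hm
      rw [← hb, ← hbz] at h1
      exact hc (le_antisymm h1 (hp.1 t))
    have := LL_le_one hp hu.1 hz
    linarith
  have hp0 : 0 < p.coeff 0 := by
    obtain ⟨t, ht⟩ := hp.ne_zero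
    exact lt_of_lt_of_le (hp.pos ht) (le_zero hu t)
  have hapos : 0 < a := by
    have hm : (0 : ℤ) ∈ p.coeff.support.filter (fun t => 0 ≤ t) := by
      rw [Finset.mem_filter]
      exact ⟨Finsupp.mem_support_iff.mpr hp0.ne', le_rfl⟩
    have h1 := Finset.single_le_sum (f := fun t => p.coeff t) (fun t _ => hp.1 t) hm
    rw [← ha] at h1
    exact lt_of_lt_of_le hp0 h1
  set x : AddMonoidAlgebra ℝ ℤ :=
    AddMonoidAlgebra.ofCoeff (a⁻¹ • p.coeff.filter (fun t => 0 ≤ t)) with hx
  set y : AddMonoidAlgebra ℝ ℤ :=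
    AddMonoidAlgebra.ofCoeff (b⁻¹ • p.coeff.filter (fun t => ¬ 0 ≤ t)) with hy
  have hxc : ∀ t, x.coeff t = if 0 ≤ t then a⁻¹ * p.coeff t else 0 := by
    intro t
    rw [hx, AddMonoidAlgebra.coeff_ofCoeff, Finsupp.smul_apply, Finsupp.filter_apply]
    split_ifs <;> simp
  have hyc : ∀ t, y.coeff t = if ¬ 0 ≤ t then b⁻¹ * p.coeff t else 0 := by
    intro t
    rw [hy, AddMonoidAlgebra.coeff_ofCoeff, Finsupp.smul_apply, Finsupp.filter_apply]
    split_ifs <;> simp
  have hainv : 0 < a⁻¹ := inv_pos.mpr hapos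
  have hbinv : 0 < b⁻¹ := inv_pos.mpr hbpos
  have hxl : Law x := by
    constructor
    · intro t
      rw [hxc]
      split_ifs
      · exact mul_nonneg hainv.le (hp.1 t)
      · exact le_rfl
    · rw [hx, AddMonoidAlgebra.coeff_ofCoeff, Finsupp.sum_smul_index (fun _ => rfl)]
      rw [Finsupp.sum, Finsupp.support_filter]
      have : ∑ t ∈ p.coeff.support.filter (fun t => 0 ≤ t), a⁻¹ * (p.coeff.filter (fun t => 0 ≤ t)) t
          = a⁻¹ * a := by
        rw [← Finset.mul_sum, ha]
        congr 1
        apply Finset.sum_congr rfl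
        intro t ht
        rw [Finset.mem_filter] at ht
        rw [Finsupp.filter_apply_pos _ _ ht.2]
      rw [this, inv_mul_cancel₀ hapos.ne']
  have hyl : Law y := by
    constructor
    · intro t
      rw [hyc]
      split_ifs
      · exact le_rfl
      · exact mul_nonneg hbinv.le (hp.1 t)
    · rw [hy, AddMonoidAlgebra.coeff_ofCoeff, Finsupp.sum_smul_index (fun _ => rfl)]
      rw [Finsupp.sum, Finsupp.support_filter]
      have : ∑ t ∈ p.coeff.support.filter (fun t => ¬ 0 ≤ t),
          b⁻¹ * (p.coeff.filter (fun t => ¬ 0 ≤ t)) t = b⁻¹ * b := by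
        rw [← Finset.mul_sum, hb]
        congr 1
        apply Finset.sum_congr rfl
        intro t ht
        rw [Finset.mem_filter] at ht
        exact Finsupp.filter_apply_pos (fun t : ℤ => ¬ 0 ≤ t) _ ht.2
      rw [this, inv_mul_cancel₀ hbpos.ne']
  have hpmix : p = a • x + b • y := by
    apply AddMonoidAlgebra.coeff_injective
    ext t
    rw [coeff_mix, hxc, hyc]
    by_cases h : 0 ≤ t
    · rw [if_pos h, if_neg (not_not.mpr h), mul_zero, add_zero, ← mul_assoc,
        mul_inv_cancel₀ hapos.ne', one_mul]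
    · rw [if_neg h, if_pos h, mul_zero, zero_add, ← mul_assoc,
        mul_inv_cancel₀ hbpos.ne', one_mul]
  have hLx : LL x ≤ 4 * sg x + 14 := by
    apply LL_le_one hxl
    · intro s t hs hst
      rw [hxc, hxc, if_pos hs, if_pos (by omega)]
      exact mul_le_mul_of_nonneg_left (hu.1 s t hs hst) hainv.le
    · intro t ht
      rw [hxc, if_neg (by omega)]
  have hLy : LL y ≤ 4 * sg y + 14 := by
    apply LL_le_left hyl
    · intro s t hst hs
      rw [hyc, hyc, if_pos (by omega), if_pos (by omega)]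
      exact mul_le_mul_of_nonneg_left (hu.2 s t hst (by omega)) hbinv.le
    · intro t ht
      rw [hyc, if_neg (not_not.mpr ht)]
  have hsx := sg_nonneg hxl
  have hsy := sg_nonneg hyl
  -- upper bound for the loss
  have hL : LL p ≤ a * LL x + b * LL y + 1 := by
    have h1 := H_mix_le hxl hyl hapos.le hb0 hab
    have h2 := EL_mix x y a b
    rw [← hpmix] at h1 h2
    unfold LL
    linarith
  -- lower bound for the doubling
  have hS : a * H x + b * H y + (a * sg x + b * sg y) / 2 ≤ H (p * p) := by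
    have e1 : p * p = a • (x * p) + b • (y * p) := by
      conv_lhs => rw [hpmix]
      rw [add_mul, smul_mul_assoc, smul_mul_assoc, ← hpmix]
    have e2 : x * p = a • (x * x) + b • (x * y) := by
      conv_lhs => rw [hpmix]
      rw [mul_add, mul_smul_comm, mul_smul_comm]
    have e3 : y * p = a • (x * y) + b • (y * y) := by
      conv_lhs => rw [hpmix]
      rw [mul_add, mul_smul_comm, mul_smul_comm, mul_comm y x]
    have h1 := H_concave (hxl.mul hp) (hyl.mul hp) hapos.le hb0 hab
    rw [← e1] at h1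
    have h2 := H_concave (hxl.mul hxl) (hxl.mul hyl) hapos.le hb0 hab
    rw [← e2] at h2
    have h3 := H_concave (hxl.mul hyl) (hyl.mul hyl) hapos.le hb0 hab
    rw [← e3] at h3
    have h4 := two_gain hxl hyl
    have h5 := two_gain hyl hxl
    rw [mul_comm y x] at h5
    have h6 : H (x * y) ≥ H x / 2 + H y / 2 + (sg x + sg y) / 4 := by linarith
    have h7 : H (x * x) = H x + sg x := by unfold sg; ring
    have h8 : H (y * y) = H y + sg y := by unfold sg; ring
    rw [h7] at h2
    rw [h8] at h3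
    have h9 : a * H (x * p) ≥ a * (a * (H x + sg x) + b * (H x / 2 + H y / 2 + (sg x + sg y) / 4)) := by
      apply mul_le_mul_of_nonneg_left _ hapos.le
      have := mul_le_mul_of_nonneg_left h6 hb0
      linarith
    have h10 : b * H (y * p) ≥ b * (a * (H x / 2 + H y / 2 + (sg x + sg y) / 4) + b * (H y + sg y)) := by
      apply mul_le_mul_of_nonneg_left _ hb0
      have := mul_le_mul_of_nonneg_left h6 hapos.le
      linarith
    have hb' : b = 1 - a := by linarith
    have h11 : a * (a * (H x + sg x) + b * (H x / 2 + H y / 2 + (sg x + sg y) / 4)) +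
        b * (a * (H x / 2 + H y / 2 + (sg x + sg y) / 4) + b * (H y + sg y)) =
        a * H x + b * H y + (a * sg x + b * sg y) / 2 + (a ^ 2 * sg x + b ^ 2 * sg y) / 2 := by
      rw [hb']; ring
    have h12 : 0 ≤ (a ^ 2 * sg x + b ^ 2 * sg y) / 2 := by positivity
    linarith
  have hHle : H p ≤ a * H x + b * H y + 1 := by
    have h1 := H_mix_le hxl hyl hapos.le hb0 hab
    rw [← hpmix] at h1
    exact h1
  have hsg : (a * sg x + b * sg y) / 2 - 1 ≤ sg p := by
    unfold sg at *
    linarith
  have h1 : a * LL x ≤ a * (4 * sg x + 14) := mul_le_mul_of_nonneg_left hLx hapos.le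
  have h2 : b * LL y ≤ b * (4 * sg y + 14) := mul_le_mul_of_nonneg_left hLy hb0
  have hb' : b = 1 - a := by linarith
  nlinarith

/-- **The one-dimensional inequality.** -/
theorem LL_le {p : AddMonoidAlgebra ℝ ℤ} (hp : Law p) (hu : Uni p) :
    LL p ≤ 10000000 * sg p := by
  have hs := sg_nonneg hp
  rcases le_total (p.coeff 0) (7 / 8) with h | h
  · have h1 := sg_lower hp hu h
    have h2 := LL_le_two hp hu
    linarith
  · have := small_case hp hu h
    linarith

/-- the inequality for pairs -/
theorem gain_pair {p q : AddMonoidAlgebra ℝ ℤ} (hp : Law p) (hq : Law q) (hup : Uni p)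
    (huq : Uni q) : (LL p + LL q) / 40000000 ≤ H (p * q) - H p / 2 - H q / 2 := by
  have h1 := two_gain hp hq
  have h2 := two_gain hq hp
  rw [mul_comm q p] at h2
  have h3 := LL_le hp hup
  have h4 := LL_le hq huq
  linarith

end Pool.Agent.R92.Star
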