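import Pool.Agent.H24.Lib.R_seed8.R92.Star.Four

set_option autoImplicit false
set_option linter.unusedSectionVars false

/-! The induction on the dimension. -/

namespace Pool.Agent.R92.Star

open H112 Finset
open scoped Pointwise

section slices

variable {Γ : Type*} [AddCommGroup Γ] [DecidableEq Γ]

/-- the slice of `A` over `t` -/
def sl (A : Finset (ℤ × Γ)) (t : ℤ) : Finset Γ := (A.filter (fun x => x.1 = t)).image Prod.snd

theorem mem_sl {A : Finset (ℤ × Γ)} {t : ℤ} {g : Γ} : g ∈ sl A t ↔ (t, g) ∈ A := by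
  unfold sl
  simp only [Finset.mem_image, Finset.mem_filter]
  constructor
  · rintro ⟨⟨a, b⟩, ⟨h1, h2⟩, h3⟩
    simp only at h2 h3
    subst h2; subst h3
    exact h1
  · intro h
    exact ⟨(t, g), ⟨h, rfl⟩, rfl⟩

theorem card_sl (A : Finset (ℤ × Γ)) (t : ℤ) :
    (A.filter (fun x => x.1 = t)).card = (sl A t).card := by
  unfold sl
  rw [Finset.card_image_of_injOn]
  intro a ha b hb hab
  simp only [Finset.coe_filter, Set.mem_ofPred_eq] at ha hb
  exact Prod.ext (ha.2.trans hb.2.symm) hab

/-- the law of the first coordinate -/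
noncomputable def pm (A : Finset (ℤ × Γ)) : AddMonoidAlgebra ℝ ℤ :=
  AddMonoidAlgebra.ofCoeff ((unif A).mapDomain Prod.fst)

theorem law_pm {A : Finset (ℤ × Γ)} (hA : A.Nonempty) : Law (pm A) := by
  unfold Law pm
  exact isLaw_mapDomain (isLaw_unif hA) _

theorem pm_apply {A : Finset (ℤ × Γ)} (t : ℤ) :
    (pm A).coeff t = (sl A t).card / A.card := by
  classical
  unfold pm
  rw [AddMonoidAlgebra.coeff_ofCoeff]
  have h1 : ((unif A).mapDomain Prod.fst) t = ∑ x ∈ A, if x.1 = t then ((A.card : ℝ))⁻¹ else 0 := by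
    rw [Finsupp.mapDomain, Finsupp.sum_apply]
    rw [shannon_unif_sum (A := A) (fun x a => (Finsupp.single x.1 a) t) (fun x => by simp)]
    apply Finset.sum_congr rfl
    intro x _
    rw [Finsupp.single_apply]
  rw [h1, ← Finset.sum_filter, Finset.sum_const, nsmul_eq_mul, card_sl, div_eq_mul_inv]

theorem mem_supp_pm {A : Finset (ℤ × Γ)} (hA : A.Nonempty) {t : ℤ} :
    t ∈ (pm A).coeff.support ↔ (sl A t).Nonempty := by
  rw [Finsupp.mem_support_iff, pm_apply]
  have hA0 : (A.card : ℝ) ≠ 0 := by exact_mod_cast hA.card_pos.ne'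
  constructor
  · intro h
    rw [← Finset.card_pos]
    by_contra hc
    apply h
    have : (sl A t).card = 0 := by omega
    rw [this]; simp
  · intro h
    have : ((sl A t).card : ℝ) ≠ 0 := by exact_mod_cast h.card_pos.ne'
    exact div_ne_zero this hA0

theorem log_card_eq {A : Finset (ℤ × Γ)} (hA : A.Nonempty) :
    Real.log A.card = H (pm A) +
      ∑ t ∈ (pm A).coeff.support, (pm A).coeff t * Real.log (sl A t).card := by
  rw [H_eq, ← Finset.sum_add_distrib]
  have h1 : Real.log A.card = ∑ t ∈ (pm A).coeff.support, (pm A).coeff t * Real.log A.card := by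
    rw [← Finset.sum_mul, (law_pm hA).sum_eq, one_mul]
  rw [h1]
  apply Finset.sum_congr rfl
  intro t ht
  have hs := (mem_supp_pm hA).mp ht
  have h2 : ((sl A t).card : ℝ) ≠ 0 := by exact_mod_cast hs.card_pos.ne'
  have hA0 : (A.card : ℝ) ≠ 0 := by exact_mod_cast hA.card_pos.ne'
  have h3 : Real.log ((pm A).coeff t) = Real.log (sl A t).card - Real.log A.card := by
    rw [pm_apply, Real.log_div h2 hA0]
  rw [h3]; ring

theorem sum_sl_le (A : Finset (ℤ × Γ)) (S : Finset ℤ) :
    ∑ t ∈ S, (sl A t).card ≤ A.card := by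
  have h1 : ∀ t ∈ S, (sl A t).card = (A.filter (fun x => x.1 = t)).card := fun t _ =>
    (card_sl A t).symm
  rw [Finset.sum_congr rfl h1]
  have h2 : ∑ t ∈ S, (A.filter (fun x => x.1 = t)).card =
      (A.filter (fun x => x.1 ∈ S)).card := by
    rw [Finset.card_eq_sum_card_fiberwise (f := Prod.fst) (s := A.filter (fun x => x.1 ∈ S)) (t := S)
      (fun x hx => by
        rw [Finset.mem_coe, Finset.mem_filter] at hx
        exact hx.2)]
    apply Finset.sum_congr rfl
    intro t ht
    congr 1
    ext x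
    simp only [Finset.mem_filter]
    constructor
    · rintro ⟨h1, h2⟩
      exact ⟨⟨h1, h2 ▸ ht⟩, h2⟩
    · rintro ⟨⟨h1, _⟩, h2⟩
      exact ⟨h1, h2⟩
  rw [h2]
  exact Finset.card_filter_le _ _

theorem sl_add_subset (A B : Finset (ℤ × Γ)) (s t : ℤ) : sl A s + sl B t ⊆ sl (A + B) (s + t) := by
  intro x hx
  obtain ⟨a, ha, b, hb, rfl⟩ := Finset.mem_add.mp hx
  rw [mem_sl] at ha hb ⊢
  exact Finset.mem_add.mpr ⟨_, ha, _, hb, rfl⟩

/-- the chain rule for sumsets -/
theorem chain_sumset {A B : Finset (ℤ × Γ)} (hA : A.Nonempty) (hB : B.Nonempty) :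
    H (pm A * pm B) + ∑ x ∈ (pm A).coeff.support, ∑ z ∈ (pm B).coeff.support,
      (pm A).coeff x * (pm B).coeff z * Real.log (sl A x + sl B z).card ≤
      Real.log (A + B).card := by
  classical
  set p := pm A with hp
  set q := pm B with hq
  have hpl : Law p := law_pm hA
  have hql : Law q := law_pm hB
  have hrl := hpl.mul hql
  set r := (p * q).coeff with hr
  set N : ℤ → ℝ := fun s => ((sl (A + B) s).card : ℝ) with hN
  have hABne : (A + B).Nonempty := hA.add hB
  have hABpos : (0 : ℝ) < (A + B).card := by exact_mod_cast hABne.card_pos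
  have hNpos : ∀ s ∈ r.support, 0 < N s := by
    intro s hs
    have h1 : (p * q).coeff.support ⊆ p.coeff.support + q.coeff.support :=
      support_mul_subset (Finset.Subset.refl _) (Finset.Subset.refl _)
        (fun a ha b hb => Finset.add_mem_add ha hb)
    obtain ⟨x, hx, z, hz, rfl⟩ := Finset.mem_add.mp (h1 hs)
    obtain ⟨g, hg⟩ := (mem_supp_pm hA).mp hx
    obtain ⟨g', hg'⟩ := (mem_supp_pm hB).mp hz
    have : (sl (A + B) (x + z)).Nonempty :=
      ⟨g + g', sl_add_subset A B x z (Finset.add_mem_add hg hg')⟩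
    simp only [hN]
    exact_mod_cast this.card_pos
  have hgibbs : H (p * q) + ∑ s ∈ r.support, r s * Real.log (N s) ≤ Real.log (A + B).card := by
    have h1 : ∀ s ∈ r.support, r s * (-Real.log (r s)) + r s * Real.log (N s) -
        r s * Real.log (A + B).card ≤ N s / (A + B).card - r s := by
      intro s hs
      have hrs : 0 < r s := hrl.pos hs
      have hNs := hNpos s hs
      have h2 := Real.log_le_sub_one_of_pos (div_pos (div_pos hNs hABpos) hrs)
      rw [Real.log_div (by positivity) hrs.ne', Real.log_div hNs.ne' hABpos.ne'] at h2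
      calc r s * (-Real.log (r s)) + r s * Real.log (N s) - r s * Real.log (A + B).card
          = r s * (Real.log (N s) - Real.log (A + B).card - Real.log (r s)) := by ring
        _ ≤ r s * (N s / (A + B).card / r s - 1) := mul_le_mul_of_nonneg_left h2 hrs.le
        _ = _ := by field_simp
    have h2 := Finset.sum_le_sum h1
    rw [Finset.sum_sub_distrib, Finset.sum_sub_distrib, Finset.sum_add_distrib,
      ← Finset.sum_mul, ← Finset.sum_div] at h2
    have h3 : ∑ s ∈ r.support, r s = 1 := hrl.sum_eq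
    have h4 : ∑ s ∈ r.support, N s ≤ (A + B).card := by
      simp only [hN]
      exact_mod_cast sum_sl_le (A + B) r.support
    have h5 : (∑ s ∈ r.support, N s) / (A + B).card ≤ 1 := by
      rw [div_le_one hABpos]; exact h4
    rw [h3] at h2
    have h6 : H (p * q) = ∑ s ∈ r.support, r s * (-Real.log (r s)) := H_eq
    rw [h6]
    linarith
  refine le_trans ?_ hgibbs
  have hsum : ∑ s ∈ r.support, r s * Real.log (N s) = ∑ x ∈ p.coeff.support,
      ∑ z ∈ q.coeff.support, p.coeff x * q.coeff z * Real.log (N (x + z)) :=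
    KL_sum_mul p q (fun s => Real.log (N s))
  rw [hsum]
  have : ∑ x ∈ p.coeff.support, ∑ z ∈ q.coeff.support,
      p.coeff x * q.coeff z * Real.log (sl A x + sl B z).card ≤
      ∑ x ∈ p.coeff.support, ∑ z ∈ q.coeff.support, p.coeff x * q.coeff z * Real.log (N (x + z)) := by
    apply Finset.sum_le_sum
    intro x hx
    apply Finset.sum_le_sum
    intro z hz
    apply mul_le_mul_of_nonneg_left _ (mul_nonneg (hpl.1 _) (hql.1 _))
    have h1 := (mem_supp_pm hA).mp hx
    have h2 := (mem_supp_pm hB).mp hz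
    apply Real.log_le_log
    · exact_mod_cast (h1.add h2).card_pos
    · simp only [hN]
      exact_mod_cast Finset.card_le_card (sl_add_subset A B x z)
  linarith

/-- nested slices -/
def Nest (A : Finset (ℤ × Γ)) : Prop :=
  (∀ s t : ℤ, 0 ≤ s → s ≤ t → sl A t ⊆ sl A s) ∧ (∀ s t : ℤ, t ≤ s → s ≤ 0 → sl A t ⊆ sl A s)

theorem uni_pm {A : Finset (ℤ × Γ)} (h : Nest A) : Uni (pm A) := by
  constructor
  · intro s t hs hst
    rw [pm_apply, pm_apply]
    apply div_le_div_of_nonneg_right _ (by positivity)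
    exact_mod_cast Finset.card_le_card (h.1 s t hs hst)
  · intro s t hst hs
    rw [pm_apply, pm_apply]
    apply div_le_div_of_nonneg_right _ (by positivity)
    exact_mod_cast Finset.card_le_card (h.2 s t hst hs)

/-- the new functional -/
noncomputable def Lam (Λ : Finset Γ → ℝ) (A : Finset (ℤ × Γ)) : ℝ :=
  ∑ t ∈ (pm A).coeff.support, (pm A).coeff t * Λ (sl A t) + LL (pm A) / 40000000

/-- the induction step for the inequality -/
theorem step_ineq (P : Finset Γ → Prop) (Λ : Finset Γ → ℝ)
    (hG : ∀ A B : Finset Γ, A.Nonempty → B.Nonempty → P A → P B →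
      (Real.log A.card + Real.log B.card) / 2 + Λ A + Λ B ≤ Real.log (A + B).card)
    {A B : Finset (ℤ × Γ)} (hA : A.Nonempty) (hB : B.Nonempty)
    (hPA : ∀ t, (sl A t).Nonempty → P (sl A t)) (hPB : ∀ t, (sl B t).Nonempty → P (sl B t))
    (hNA : Nest A) (hNB : Nest B) :
    (Real.log A.card + Real.log B.card) / 2 + Lam Λ A + Lam Λ B ≤ Real.log (A + B).card := by
  classical
  have hchain := chain_sumset hA hB
  set p := pm A with hp
  set q := pm B with hq
  have hpl : Law p := law_pm hA
  have hql : Law q := law_pm hB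
  have hgain := gain_pair hpl hql (uni_pm hNA) (uni_pm hNB)
  have h1 : ∑ x ∈ p.coeff.support, ∑ z ∈ q.coeff.support, p.coeff x * q.coeff z *
      ((Real.log (sl A x).card + Real.log (sl B z).card) / 2 + Λ (sl A x) + Λ (sl B z)) ≤
      ∑ x ∈ p.coeff.support, ∑ z ∈ q.coeff.support,
      p.coeff x * q.coeff z * Real.log (sl A x + sl B z).card := by
    apply Finset.sum_le_sum
    intro x hx
    apply Finset.sum_le_sum
    intro z hz
    apply mul_le_mul_of_nonneg_left _ (mul_nonneg (hpl.1 _) (hql.1 _))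
    have h1 := (mem_supp_pm hA).mp hx
    have h2 := (mem_supp_pm hB).mp hz
    exact hG _ _ h1 h2 (hPA x h1) (hPB z h2)
  have hs1 : ∑ x ∈ p.coeff.support, p.coeff x = 1 := hpl.sum_eq
  have hs2 : ∑ z ∈ q.coeff.support, q.coeff z = 1 := hql.sum_eq
  have h2 : ∑ x ∈ p.coeff.support, ∑ z ∈ q.coeff.support, p.coeff x * q.coeff z *
      ((Real.log (sl A x).card + Real.log (sl B z).card) / 2 + Λ (sl A x) + Λ (sl B z)) =
      ∑ x ∈ p.coeff.support, p.coeff x * (Real.log (sl A x).card / 2 + Λ (sl A x)) +
      ∑ z ∈ q.coeff.support, q.coeff z * (Real.log (sl B z).card / 2 + Λ (sl B z)) := by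
    have e3 : ∀ x ∈ p.coeff.support, ∀ z ∈ q.coeff.support, p.coeff x * q.coeff z *
        ((Real.log (sl A x).card + Real.log (sl B z).card) / 2 + Λ (sl A x) + Λ (sl B z)) =
        q.coeff z * (p.coeff x * (Real.log (sl A x).card / 2 + Λ (sl A x))) +
        p.coeff x * (q.coeff z * (Real.log (sl B z).card / 2 + Λ (sl B z))) := by
      intro x _ z _; ring
    rw [Finset.sum_congr rfl fun x hx => Finset.sum_congr rfl fun z hz => e3 x hx z hz]
    simp only [Finset.sum_add_distrib]
    congr 1
    · apply Finset.sum_congr rfl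
      intro x _
      rw [← Finset.sum_mul, hs2, one_mul]
    · rw [Finset.sum_comm]
      apply Finset.sum_congr rfl
      intro z _
      rw [← Finset.sum_mul, hs1, one_mul]
  have h3 := log_card_eq hA
  have h4 := log_card_eq hB
  have h5 : ∑ x ∈ p.coeff.support, p.coeff x * (Real.log (sl A x).card / 2 + Λ (sl A x)) =
      (∑ x ∈ p.coeff.support, p.coeff x * Real.log (sl A x).card) / 2 +
      ∑ x ∈ p.coeff.support, p.coeff x * Λ (sl A x) := by
    rw [Finset.sum_div, ← Finset.sum_add_distrib]
    apply Finset.sum_congr rfl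
    intro x _; ring
  have h6 : ∑ z ∈ q.coeff.support, q.coeff z * (Real.log (sl B z).card / 2 + Λ (sl B z)) =
      (∑ z ∈ q.coeff.support, q.coeff z * Real.log (sl B z).card) / 2 +
      ∑ z ∈ q.coeff.support, q.coeff z * Λ (sl B z) := by
    rw [Finset.sum_div, ← Finset.sum_add_distrib]
    apply Finset.sum_congr rfl
    intro x _; ring
  rw [h2, h5, h6] at h1
  unfold Lam
  rw [← hp, ← hq] at *
  linarith

/-- the induction step for the extraction -/
theorem step_exists (Λ : Finset Γ → ℝ) {A : Finset (ℤ × Γ)} (hA : A.Nonempty) :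
    ∃ t : ℤ, (sl A t).Nonempty ∧
      Λ (sl A t) + (Real.log A.card - Real.log (sl A t).card - Real.log (|(t : ℝ)| + 1)) / 40000000
        ≤ Lam Λ A := by
  classical
  set p := pm A with hp
  have hpl : Law p := law_pm hA
  have hs1 : ∑ x ∈ p.coeff.support, p.coeff x = 1 := hpl.sum_eq
  have h1 : Lam Λ A = ∑ t ∈ p.coeff.support, p.coeff t * (Λ (sl A t) +
      (Real.log A.card - Real.log (sl A t).card - Real.log (|(t : ℝ)| + 1)) / 40000000) := by
    have e1 : LL p = ∑ t ∈ p.coeff.support, p.coeff t *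
        (Real.log A.card - Real.log (sl A t).card - Real.log (|(t : ℝ)| + 1)) := by
      have e2 := log_card_eq hA
      rw [← hp] at e2
      have e3 : Real.log A.card = ∑ t ∈ p.coeff.support, p.coeff t * Real.log A.card := by
        rw [← Finset.sum_mul, hs1, one_mul]
      have e4 : H p = ∑ t ∈ p.coeff.support, p.coeff t *
          (Real.log A.card - Real.log (sl A t).card) := by
        simp only [mul_sub, Finset.sum_sub_distrib]
        rw [← e3]; linarith
      unfold LL EL Finsupp.sum
      rw [e4, ← Finset.sum_sub_distrib]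
      apply Finset.sum_congr rfl
      intro t _; ring
    unfold Lam
    rw [← hp, e1, Finset.sum_div, ← Finset.sum_add_distrib]
    apply Finset.sum_congr rfl
    intro t _; ring
  by_contra hcon
  push Not at hcon
  have h2 : ∑ t ∈ p.coeff.support, p.coeff t * Lam Λ A < ∑ t ∈ p.coeff.support, p.coeff t *
      (Λ (sl A t) +
      (Real.log A.card - Real.log (sl A t).card - Real.log (|(t : ℝ)| + 1)) / 40000000) := by
    apply Finset.sum_lt_sum_of_nonempty hpl.ne_zero
    intro t ht
    exact mul_lt_mul_of_pos_left (hcon t ((mem_supp_pm hA).mp ht)) (hpl.pos ht)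
  rw [← Finset.sum_mul, hs1, one_mul, ← h1] at h2
  exact lt_irrefl _ h2

end slices

end Pool.Agent.R92.Star
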