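import Pool.Agent.H24.Lib.R_seed8.R92.Star.Ind

set_option autoImplicit false
set_option linter.unusedSectionVars false
set_option linter.dupNamespace false

/-! The structure theorem for star-shaped sets. -/

namespace Pool.Agent.R92.Star

open H112 Finset
open scoped Pointwise

/-- `y` is between `0` and `x` -/
def Btw (y x : ℤ) : Prop := (0 ≤ y ∧ y ≤ x) ∨ (x ≤ y ∧ y ≤ 0)

variable {G : Type*} [AddCommGroup G] [DecidableEq G]

/-- `A` is closed under moving the integer coordinates towards `0`. -/
def Star {d : ℕ} (A : Finset ((Fin d → ℤ) × G)) : Prop :=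
  ∀ (x : Fin d → ℤ) (g : G), (x, g) ∈ A → ∀ y : Fin d → ℤ, (∀ i, Btw (y i) (x i)) → (y, g) ∈ A

/-- splitting off the first coordinate -/
def spl {d : ℕ} (z : (Fin (d + 1) → ℤ) × G) : ℤ × ((Fin d → ℤ) × G) :=
  (z.1 0, (Fin.tail z.1, z.2))

theorem spl_inj {d : ℕ} : Function.Injective (spl (G := G) (d := d)) := by
  rintro ⟨x, g⟩ ⟨y, h⟩ hxy
  unfold spl at hxy
  simp only [Prod.mk.injEq] at hxy
  obtain ⟨h1, h2, h3⟩ := hxy
  subst h3
  congr 1
  rw [← Fin.cons_self_tail x, ← Fin.cons_self_tail y, h1, h2]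

theorem spl_add {d : ℕ} (z w : (Fin (d + 1) → ℤ) × G) : spl (z + w) = spl z + spl w := rfl

theorem image_spl_add {d : ℕ} (A B : Finset ((Fin (d + 1) → ℤ) × G)) :
    (A + B).image spl = A.image spl + B.image spl := by
  ext z
  simp only [Finset.mem_image, Finset.mem_add]
  constructor
  · rintro ⟨w, ⟨a, ha, b, hb, rfl⟩, rfl⟩
    exact ⟨spl a, ⟨a, ha, rfl⟩, spl b, ⟨b, hb, rfl⟩, (spl_add a b).symm⟩
  · rintro ⟨_, ⟨a, ha, rfl⟩, _, ⟨b, hb, rfl⟩, rfl⟩
    exact ⟨a + b, ⟨a, ha, b, hb, rfl⟩, spl_add a b⟩

theorem mem_sl_spl {d : ℕ} {A : Finset ((Fin (d + 1) → ℤ) × G)} {t : ℤ} {x : Fin d → ℤ} {g : G} :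
    (x, g) ∈ sl (A.image spl) t ↔ (Fin.cons t x, g) ∈ A := by
  rw [mem_sl, Finset.mem_image]
  constructor
  · rintro ⟨⟨y, h⟩, hy, he⟩
    unfold spl at he
    simp only [Prod.mk.injEq] at he
    obtain ⟨h1, h2, h3⟩ := he
    rw [← h1, ← h2, ← h3, Fin.cons_self_tail]
    exact hy
  · intro h
    refine ⟨_, h, ?_⟩
    unfold spl
    simp

theorem star_slice {d : ℕ} {A : Finset ((Fin (d + 1) → ℤ) × G)} (h : Star A) (t : ℤ) :
    Star (sl (A.image spl) t) := by
  intro x g hx y hy
  rw [mem_sl_spl] at hx ⊢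
  apply h _ _ hx
  intro i
  refine Fin.cases ?_ (fun j => ?_) i
  · simp only [Fin.cons_zero]
    rcases le_total 0 t with h | h
    · left; exact ⟨h, le_rfl⟩
    · right; exact ⟨le_rfl, h⟩
  · simpa only [Fin.cons_succ] using hy j

theorem slice_mono {d : ℕ} {A : Finset ((Fin (d + 1) → ℤ) × G)} (h : Star A) {s t : ℤ}
    (hst : Btw s t) : sl (A.image spl) t ⊆ sl (A.image spl) s := by
  rintro ⟨x, g⟩ hx
  rw [mem_sl_spl] at hx ⊢
  apply h _ _ hx
  intro i
  refine Fin.cases ?_ (fun j => ?_) i
  · simpa only [Fin.cons_zero] using hst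
  · simp only [Fin.cons_succ]
    rcases le_total 0 (x j) with h | h
    · left; exact ⟨h, le_rfl⟩
    · right; exact ⟨le_rfl, h⟩

theorem star_nest {d : ℕ} {A : Finset ((Fin (d + 1) → ℤ) × G)} (h : Star A) :
    Nest (A.image spl) :=
  ⟨fun _ _ hs hst => slice_mono h (Or.inl ⟨hs, hst⟩),
    fun _ _ hst hs => slice_mono h (Or.inr ⟨hst, hs⟩)⟩

/-- base case: Ruzsa's triangle inequality -/
theorem base_ineq {S T : Finset G} (hS : S.Nonempty) (hT : T.Nonempty) :
    (Real.log S.card + Real.log T.card) / 2 +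
      (Real.log (S - S).card - Real.log S.card) / 4 +
      (Real.log (T - T).card - Real.log T.card) / 4 ≤ Real.log (S + T).card := by
  have h1 := Finset.ruzsa_triangle_inequality_sub_add_add S T S
  have h2 := Finset.ruzsa_triangle_inequality_sub_add_add T S T
  rw [add_comm T S] at h2
  have hS0 : (0 : ℝ) < S.card := by exact_mod_cast hS.card_pos
  have hT0 : (0 : ℝ) < T.card := by exact_mod_cast hT.card_pos
  have hST : (0 : ℝ) < (S + T).card := by exact_mod_cast (hS.add hT).card_pos
  have hSS : (0 : ℝ) < (S - S).card := by exact_mod_cast (hS.sub hS).card_pos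
  have hTT : (0 : ℝ) < (T - T).card := by exact_mod_cast (hT.sub hT).card_pos
  have h3 : ((S - S).card : ℝ) * T.card ≤ (S + T).card * (S + T).card := by exact_mod_cast h1
  have h4 : ((T - T).card : ℝ) * S.card ≤ (S + T).card * (S + T).card := by exact_mod_cast h2
  have h5 := Real.log_le_log (by positivity) h3
  have h6 := Real.log_le_log (by positivity) h4
  rw [Real.log_mul hSS.ne' hT0.ne', Real.log_mul hST.ne' hST.ne'] at h5
  rw [Real.log_mul hTT.ne' hS0.ne', Real.log_mul hST.ne' hST.ne'] at h6
  linarith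

/-- The inequality and the extraction, for all dimensions. -/
theorem exists_functional (G : Type*) [AddCommGroup G] [DecidableEq G] (d : ℕ) :
    ∃ Λ : Finset ((Fin d → ℤ) × G) → ℝ,
      (∀ A B : Finset ((Fin d → ℤ) × G), A.Nonempty → B.Nonempty → Star A → Star B →
        (Real.log A.card + Real.log B.card) / 2 + Λ A + Λ B ≤ Real.log (A + B).card) ∧
      (∀ A : Finset ((Fin d → ℤ) × G), A.Nonempty → Star A →
        ∃ (x : Fin d → ℤ) (S : Finset G), S.Nonempty ∧
          (∀ y : Fin d → ℤ, (∀ i, Btw (y i) (x i)) → ∀ g ∈ S, (y, g) ∈ A) ∧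
          (Real.log A.card - (∑ i, Real.log (|(x i : ℝ)| + 1)) - Real.log S.card) / 40000000 +
            (Real.log (S - S).card - Real.log S.card) / 4 ≤ Λ A) := by
  classical
  induction d with
  | zero =>
    have himg : ∀ A : Finset ((Fin 0 → ℤ) × G), (A.image Prod.snd).card = A.card := by
      intro A
      apply Finset.card_image_of_injOn
      intro a _ b _ hab
      exact Prod.ext (Subsingleton.elim _ _) hab
    refine ⟨fun A => (Real.log (A.image Prod.snd - A.image Prod.snd).card - Real.log A.card) / 4,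
      ?_, ?_⟩
    · intro A B hA hB _ _
      have h1 := base_ineq (hA.image Prod.snd) (hB.image Prod.snd)
      have h2 : (A.image Prod.snd + B.image Prod.snd) = (A + B).image Prod.snd :=
        (Finset.image_add (AddMonoidHom.snd (Fin 0 → ℤ) G)).symm
      rw [h2, himg, himg, himg] at h1
      exact h1
    · intro A hA _
      refine ⟨fun i => i.elim0, A.image Prod.snd, hA.image _, ?_, ?_⟩
      · intro y _ g hg
        obtain ⟨⟨a, b⟩, hab, rfl⟩ := Finset.mem_image.mp hg
        have : y = a := Subsingleton.elim _ _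
        rw [this]; exact hab
      · rw [himg]
        simp
  | succ d ih =>
    obtain ⟨Λ, hΛ1, hΛ2⟩ := ih
    refine ⟨fun A => Lam Λ (A.image spl), ?_, ?_⟩
    · intro A B hA hB hSA hSB
      have h1 := step_ineq (P := Star) Λ hΛ1 (hA.image spl) (hB.image spl)
        (fun t _ => star_slice hSA t) (fun t _ => star_slice hSB t) (star_nest hSA) (star_nest hSB)
      rw [← image_spl_add, Finset.card_image_of_injective _ spl_inj,
        Finset.card_image_of_injective _ spl_inj, Finset.card_image_of_injective _ spl_inj] at h1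
      exact h1
    · intro A hA hSA
      obtain ⟨t, ht, hle⟩ := step_exists Λ (hA.image (spl (G := G) (d := d)))
      obtain ⟨x, S, hS, hbox, hle2⟩ := hΛ2 _ ht (star_slice hSA t)
      refine ⟨Fin.cons t x, S, hS, ?_, ?_⟩
      · intro y hy g hg
        have h0 : Btw (y 0) t := by simpa using hy 0
        have h1 : (Fin.tail y, g) ∈ sl (A.image spl) t := by
          apply hbox _ _ g hg
          intro i
          have := hy i.succ
          simpa [Fin.tail] using this
        have h2 := slice_mono hSA h0 h1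
        rw [mem_sl_spl, Fin.cons_self_tail] at h2
        exact h2
      · rw [Finset.card_image_of_injective _ spl_inj] at hle
        rw [Fin.sum_univ_succ]
        simp only [Fin.cons_zero, Fin.cons_succ]
        have : (Real.log A.card - (Real.log (|(t : ℝ)| + 1) + ∑ i, Real.log (|(x i : ℝ)| + 1)) -
            Real.log S.card) / 40000000 =
            (Real.log A.card - Real.log (sl (A.image spl) t).card - Real.log (|(t : ℝ)| + 1)) / 40000000
            + (Real.log (sl (A.image spl) t).card - ∑ i, Real.log (|(x i : ℝ)| + 1) -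
              Real.log S.card) / 40000000 := by ring
        rw [this]
        linarith

/-- **Structure theorem.** A star-shaped set `A` of doubling `K` contains a product of a box and a
set of small difference set, of size at least `K ^ (-20000000) |A|`. -/
theorem structure_thm {d : ℕ} {A : Finset ((Fin d → ℤ) × G)} (hA : A.Nonempty) (hS : Star A)
    {K : ℝ} (hK : ((A + A).card : ℝ) ≤ K * A.card) :
    ∃ (x : Fin d → ℤ) (S : Finset G), S.Nonempty ∧
      (∀ y : Fin d → ℤ, (∀ i, Btw (y i) (x i)) → ∀ g ∈ S, (y, g) ∈ A) ∧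
      (A.card : ℝ) ≤ K ^ 20000000 * ((∏ i, (|(x i : ℝ)| + 1)) * S.card) ∧
      ((S - S).card : ℝ) ≤ K ^ 2 * S.card := by
  classical
  obtain ⟨Λ, h1, h2⟩ := exists_functional G d
  have h3 := h1 A A hA hA hS hS
  obtain ⟨x, S, hSne, hbox, hle⟩ := h2 A hA hS
  have hA0 : (0 : ℝ) < A.card := by exact_mod_cast hA.card_pos
  have hAA : (A.card : ℝ) ≤ (A + A).card := by exact_mod_cast Finset.card_le_card_add_left hA
  have hAA0 : (0 : ℝ) < (A + A).card := by linarith
  have hK1 : 1 ≤ K := by
    by_contra h
    push Not at h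
    nlinarith
  have hK0 : 0 < K := by linarith
  have h4 : Real.log (A + A).card ≤ Real.log K + Real.log A.card := by
    rw [← Real.log_mul hK0.ne' hA0.ne']
    exact Real.log_le_log hAA0 hK
  have hS0 : (0 : ℝ) < S.card := by exact_mod_cast hSne.card_pos
  have hSS0 : (0 : ℝ) < (S - S).card := by exact_mod_cast (hSne.sub hSne).card_pos
  have hSS : Real.log S.card ≤ Real.log (S - S).card := by
    apply Real.log_le_log hS0
    exact_mod_cast Finset.card_le_card_sub_left hSne
  have hlogK : 0 ≤ Real.log K := Real.log_nonneg hK1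
  -- the box is in `A`
  have hboxcard : (∏ i, (|(x i : ℝ)| + 1)) * S.card ≤ A.card := by
    set Bx : Finset (Fin d → ℤ) := Fintype.piFinset (fun i => Finset.Icc (min 0 (x i)) (max 0 (x i)))
      with hBx
    have hc : (Bx.card : ℝ) = ∏ i, (|(x i : ℝ)| + 1) := by
      rw [hBx, Fintype.card_piFinset]
      push_cast
      apply Finset.prod_congr rfl
      intro i _
      rw [Int.card_Icc]
      have : ((max 0 (x i) + 1 - min 0 (x i)).toNat : ℤ) = |x i| + 1 := by
        rw [Int.toNat_of_nonneg (by omega)]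
        rcases le_total 0 (x i) with h | h
        · rw [max_eq_right h, min_eq_left h, abs_of_nonneg h]; ring
        · rw [max_eq_left h, min_eq_right h, abs_of_nonpos h]; ring
      exact_mod_cast this
    have hsub : Bx ×ˢ S ⊆ A := by
      rintro ⟨y, g⟩ hyg
      rw [Finset.mem_product] at hyg
      apply hbox y _ g hyg.2
      intro i
      have h7 : min 0 (x i) ≤ y i ∧ y i ≤ max 0 (x i) :=
        Finset.mem_Icc.mp (Fintype.mem_piFinset.mp hyg.1 i)
      unfold Btw
      omega
    have := Finset.card_le_card hsub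
    rw [Finset.card_product] at this
    rw [← hc]
    exact_mod_cast this
  have hprod0 : (0 : ℝ) < ∏ i, (|(x i : ℝ)| + 1) := Finset.prod_pos fun i _ => by positivity
  have hlogprod : Real.log (∏ i, (|(x i : ℝ)| + 1)) = ∑ i, Real.log (|(x i : ℝ)| + 1) :=
    Real.log_prod (fun i _ => by positivity)
  have hbox2 : ∑ i, Real.log (|(x i : ℝ)| + 1) + Real.log S.card ≤ Real.log A.card := by
    rw [← hlogprod, ← Real.log_mul hprod0.ne' hS0.ne']
    exact Real.log_le_log (by positivity) hboxcard
  refine ⟨x, S, hSne, hbox, ?_, ?_⟩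
  · have h5 : Real.log A.card ≤ 20000000 * Real.log K +
        (∑ i, Real.log (|(x i : ℝ)| + 1) + Real.log S.card) := by linarith
    have h6 : Real.log (K ^ 20000000 * ((∏ i, (|(x i : ℝ)| + 1)) * S.card)) =
        20000000 * Real.log K + (∑ i, Real.log (|(x i : ℝ)| + 1) + Real.log S.card) := by
      rw [Real.log_mul (by positivity) (by positivity), Real.log_pow, Real.log_mul hprod0.ne' hS0.ne',
        hlogprod]
      norm_num
    rw [← h6] at h5
    exact (Real.log_le_log_iff hA0 (by positivity)).mp h5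
  · have h5 : Real.log (S - S).card ≤ 2 * Real.log K + Real.log S.card := by linarith
    have h6 : Real.log (K ^ 2 * S.card) = 2 * Real.log K + Real.log S.card := by
      rw [Real.log_mul (by positivity) hS0.ne', Real.log_pow]
      norm_num
    rw [← h6] at h5
    exact (Real.log_le_log_iff hSS0 (by positivity)).mp h5

end Pool.Agent.R92.Star
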