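import Pool.Agent.H24.Lib.R_seed8.H112R2.KL

set_option autoImplicit false
set_option linter.unusedSectionVars false

/-! The one-dimensional entropy inequality for unimodal laws on `ℤ`. -/

namespace Pool.Agent.R92.Star

open H112 Finset

/-- unimodal at `0` -/
def Uni (p : AddMonoidAlgebra ℝ ℤ) : Prop :=
  (∀ s t : ℤ, 0 ≤ s → s ≤ t → p.coeff t ≤ p.coeff s) ∧
    (∀ s t : ℤ, t ≤ s → s ≤ 0 → p.coeff t ≤ p.coeff s)

/-- the expectation of `log (|U| + 1)` -/
noncomputable def EL (p : AddMonoidAlgebra ℝ ℤ) : ℝ :=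
  p.coeff.sum fun t a => a * Real.log (|(t : ℝ)| + 1)

/-- the loss -/
noncomputable def LL (p : AddMonoidAlgebra ℝ ℤ) : ℝ := H p - EL p

/-- the doubling -/
noncomputable def sg (p : AddMonoidAlgebra ℝ ℤ) : ℝ := H (p * p) - H p

theorem sg_nonneg {p : AddMonoidAlgebra ℝ ℤ} (hp : Law p) : 0 ≤ sg p := by
  have := H_le_mul hp hp
  unfold sg; linarith

theorem two_gain {p q : AddMonoidAlgebra ℝ ℤ} (hp : Law p) (hq : Law q) :
    sg p ≤ 2 * (H (p * q) - H p / 2 - H q / 2) := by
  have h1 := H_submod hp hq hp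
  have h2 := H_le_mul (hp.mul hp) hq
  have e1 : p * q * p = p * p * q := by ring
  have e2 : q * p = p * q := by ring
  rw [e1, e2] at h1
  unfold sg
  linarith

theorem EL_nonneg {p : AddMonoidAlgebra ℝ ℤ} (hp : Law p) : 0 ≤ EL p := by
  unfold EL Finsupp.sum
  refine Finset.sum_nonneg fun t _ => ?_
  apply mul_nonneg (hp.1 t)
  apply Real.log_nonneg
  have := abs_nonneg (t : ℝ)
  linarith

theorem H_eq {p : AddMonoidAlgebra ℝ ℤ} :
    H p = ∑ t ∈ p.coeff.support, p.coeff t * (-Real.log (p.coeff t)) :=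
  shannon_ent_eq p.coeff

theorem H_eq_of {p : AddMonoidAlgebra ℝ ℤ} {S : Finset ℤ} (hS : p.coeff.support ⊆ S) :
    H p = ∑ t ∈ S, Real.negMulLog (p.coeff t) := by
  unfold H ent Finsupp.sum
  apply Finset.sum_subset hS
  intro x _ hx
  rw [Finsupp.notMem_support_iff.mp hx]
  exact Real.negMulLog_zero

/-- an injective family of values of a law has sum at most one -/
theorem sum_inj_le {p : AddMonoidAlgebra ℝ ℤ} (hp : Law p) (S : Finset ℤ) (φ : ℤ → ℤ)
    (hφ : Set.InjOn φ S) : ∑ t ∈ S, p.coeff (φ t) ≤ 1 := by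
  classical
  rw [← Finset.sum_image (f := fun t => p.coeff t) hφ]
  have h1 : ∑ t ∈ S.image φ, p.coeff t ≤ ∑ t ∈ p.coeff.support ∪ S.image φ, p.coeff t :=
    Finset.sum_le_sum_of_subset_of_nonneg Finset.subset_union_right fun t _ _ => hp.1 t
  have h2 : ∑ t ∈ p.coeff.support ∪ S.image φ, p.coeff t = ∑ t ∈ p.coeff.support, p.coeff t := by
    symm
    apply Finset.sum_subset Finset.subset_union_left
    intro t _ ht
    exact Finsupp.notMem_support_iff.mp ht
  rw [h2] at h1
  exact h1.trans hp.sum_eq.le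

section oneSided

variable {p : AddMonoidAlgebra ℝ ℤ} (hp : Law p)
  (hmono : ∀ s t : ℤ, 0 ≤ s → s ≤ t → p.coeff t ≤ p.coeff s)
  (hneg : ∀ t : ℤ, t < 0 → p.coeff t = 0)

include hp hmono in
theorem le_inv (x : ℤ) (hx : 0 ≤ x) : ((x : ℝ) + 1) * p.coeff x ≤ 1 := by
  have h1 := sum_inj_le hp (Finset.Icc 0 x) id Function.injective_id.injOn
  have h2 : ∑ t ∈ Finset.Icc 0 x, p.coeff x ≤ ∑ t ∈ Finset.Icc 0 x, p.coeff (id t) := by
    apply Finset.sum_le_sum
    intro t ht
    rw [Finset.mem_Icc] at ht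
    exact hmono t x ht.1 ht.2
  rw [Finset.sum_const, Int.card_Icc, nsmul_eq_mul] at h2
  have h3 : (((x + 1 - 0).toNat : ℕ) : ℝ) = (x : ℝ) + 1 := by
    have : ((x + 1 - 0).toNat : ℤ) = x + 1 := by
      rw [Int.toNat_of_nonneg (by omega)]; ring
    exact_mod_cast this
  rw [h3] at h2
  linarith

include hp hmono hneg in
theorem conv_le (s : ℤ) (h : ℤ) (hh : 2 * h ≤ s + 1) (hh0 : 0 ≤ h) :
    (p * p).coeff s ≤ 2 * p.coeff h := by
  rw [coeff_mul_apply]
  unfold Finsupp.sum
  have h1 : ∀ x ∈ p.coeff.support, p.coeff x * p.coeff (s - x) ≤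
      p.coeff h * (p.coeff (s - x) + p.coeff x) := by
    intro x hx
    have hx0 : 0 ≤ x := by
      by_contra hc
      exact Finsupp.mem_support_iff.mp hx (hneg x (by omega))
    have p1 := hp.1 x
    have p2 := hp.1 (s - x)
    have p3 := hp.1 h
    rcases le_or_gt h x with hc | hc
    · have := hmono h x hh0 hc
      nlinarith
    · have := hmono h (s - x) hh0 (by omega)
      nlinarith
  refine (Finset.sum_le_sum h1).trans ?_
  rw [← Finset.mul_sum, Finset.sum_add_distrib]
  have h2 := sum_inj_le hp p.coeff.support (fun x => s - x) (fun a _ b _ hab => by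
    simp only at hab; omega)
  have h3 := sum_inj_le hp p.coeff.support id Function.injective_id.injOn
  simp only [id] at h3
  have p3 := hp.1 h
  nlinarith

include hp hmono hneg in
/-- the values of the law at `⌈t / 2⌉` and at `t` are comparable on average -/
theorem half_sum : ∑ t ∈ p.coeff.support, p.coeff t *
    (Real.log (p.coeff ((t + 1) / 2)) - Real.log (p.coeff t)) ≤ 1 := by
  classical
  have h1 : ∀ t ∈ p.coeff.support, p.coeff t *
      (Real.log (p.coeff ((t + 1) / 2)) - Real.log (p.coeff t)) ≤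
      p.coeff ((t + 1) / 2) - p.coeff t := by
    intro t ht
    have ht0 : 0 ≤ t := by
      by_contra hc
      exact Finsupp.mem_support_iff.mp ht (hneg t (by omega))
    have hpos := hp.pos ht
    have hge : p.coeff t ≤ p.coeff ((t + 1) / 2) := hmono _ _ (by omega) (by omega)
    have hpos2 : 0 < p.coeff ((t + 1) / 2) := lt_of_lt_of_le hpos hge
    rw [← Real.log_div hpos2.ne' hpos.ne']
    have := Real.log_le_sub_one_of_pos (div_pos hpos2 hpos)
    calc p.coeff t * Real.log (p.coeff ((t + 1) / 2) / p.coeff t)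
        ≤ p.coeff t * (p.coeff ((t + 1) / 2) / p.coeff t - 1) :=
          mul_le_mul_of_nonneg_left this hpos.le
      _ = _ := by field_simp
  refine (Finset.sum_le_sum h1).trans ?_
  rw [Finset.sum_sub_distrib, hp.sum_eq]
  have h2 : ∑ t ∈ p.coeff.support, p.coeff ((t + 1) / 2) =
      ∑ t ∈ p.coeff.support.filter (fun t => t % 2 = 0), p.coeff ((t + 1) / 2) +
      ∑ t ∈ p.coeff.support.filter (fun t => ¬ t % 2 = 0), p.coeff ((t + 1) / 2) :=
    (Finset.sum_filter_add_sum_filter_not _ _ _).symm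
  have h3 := sum_inj_le hp (p.coeff.support.filter (fun t => t % 2 = 0)) (fun t => (t + 1) / 2)
    (fun a ha b hb hab => by
      simp only [Finset.coe_filter, Set.mem_ofPred_eq] at ha hb
      simp only at hab
      omega)
  have h4 := sum_inj_le hp (p.coeff.support.filter (fun t => ¬ t % 2 = 0)) (fun t => (t + 1) / 2)
    (fun a ha b hb hab => by
      simp only [Finset.coe_filter, Set.mem_ofPred_eq] at ha hb
      simp only at hab
      omega)
  linarith

/-- the mean difference of the information -/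
noncomputable def Dl (p : AddMonoidAlgebra ℝ ℤ) : ℝ :=
  ∑ x ∈ p.coeff.support, ∑ z ∈ p.coeff.support, p.coeff x * p.coeff z *
    |Real.log (p.coeff x) - Real.log (p.coeff z)|

include hp hmono hneg in
theorem sg_ge : Dl p / 2 - Real.log 2 - 2 ≤ sg p := by
  classical
  set S := p.coeff.support with hS
  set g : ℤ → ℝ := fun t => Real.log (p.coeff ((t + 1) / 2)) - Real.log (p.coeff t) with hg
  have hHH : H (p * p) = ∑ x ∈ S, ∑ z ∈ S, p.coeff x * p.coeff z *
      (-Real.log ((p * p).coeff (x + z))) := by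
    rw [H_eq]
    exact KL_sum_mul p p (fun y => -Real.log ((p * p).coeff y))
  have hsum1 : ∑ z ∈ S, p.coeff z = 1 := hp.sum_eq
  have hH1 : H p = ∑ x ∈ S, ∑ z ∈ S, p.coeff x * p.coeff z *
      (-Real.log (p.coeff x) / 2 - Real.log (p.coeff z) / 2) := by
    have e1 : ∑ x ∈ S, ∑ z ∈ S, p.coeff x * p.coeff z * (-Real.log (p.coeff x) / 2) = H p / 2 := by
      rw [H_eq]
      rw [Finset.sum_div]
      apply Finset.sum_congr rfl
      intro x _
      rw [← Finset.sum_mul, ← Finset.mul_sum, hsum1]; ring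
    have e2 : ∑ x ∈ S, ∑ z ∈ S, p.coeff x * p.coeff z * (-Real.log (p.coeff z) / 2) = H p / 2 := by
      rw [Finset.sum_comm, H_eq]
      rw [Finset.sum_div]
      apply Finset.sum_congr rfl
      intro z _
      rw [← Finset.sum_mul, ← Finset.sum_mul, hsum1]; ring
    have e3 : ∀ x ∈ S, ∀ z ∈ S, p.coeff x * p.coeff z *
        (-Real.log (p.coeff x) / 2 - Real.log (p.coeff z) / 2) =
        p.coeff x * p.coeff z * (-Real.log (p.coeff x) / 2) +
        p.coeff x * p.coeff z * (-Real.log (p.coeff z) / 2) := by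
      intro x _ z _; ring
    rw [Finset.sum_congr rfl fun x hx => Finset.sum_congr rfl fun z hz => e3 x hx z hz]
    simp only [Finset.sum_add_distrib]
    rw [e1, e2]; ring
  have hG : ∑ x ∈ S, ∑ z ∈ S, p.coeff x * p.coeff z * (g x + g z) ≤ 2 := by
    have e1 : ∑ x ∈ S, ∑ z ∈ S, p.coeff x * p.coeff z * (g x + g z) =
        ∑ x ∈ S, p.coeff x * g x + ∑ z ∈ S, p.coeff z * g z := by
      have e3 : ∀ x ∈ S, ∀ z ∈ S, p.coeff x * p.coeff z * (g x + g z) =
          p.coeff z * (p.coeff x * g x) + p.coeff x * (p.coeff z * g z) := by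
        intro x _ z _; ring
      rw [Finset.sum_congr rfl fun x hx => Finset.sum_congr rfl fun z hz => e3 x hx z hz]
      simp only [Finset.sum_add_distrib]
      congr 1
      · apply Finset.sum_congr rfl
        intro x _
        rw [← Finset.sum_mul, hsum1, one_mul]
      · rw [Finset.sum_comm]
        apply Finset.sum_congr rfl
        intro z _
        rw [← Finset.sum_mul, hsum1, one_mul]
    rw [e1]
    have := half_sum hp hmono hneg
    linarith
  have hpt : ∀ x ∈ S, ∀ z ∈ S,
      |Real.log (p.coeff x) - Real.log (p.coeff z)| / 2 - Real.log 2 - (g x + g z) ≤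
      -Real.log ((p * p).coeff (x + z)) - (-Real.log (p.coeff x) / 2 - Real.log (p.coeff z) / 2) := by
    intro x hx z hz
    have hx0 : 0 ≤ x := by
      by_contra hc
      exact Finsupp.mem_support_iff.mp hx (hneg x (by omega))
    have hz0 : 0 ≤ z := by
      by_contra hc
      exact Finsupp.mem_support_iff.mp hz (hneg z (by omega))
    have hpx := hp.pos hx
    have hpz := hp.pos hz
    have hpos : 0 < (p * p).coeff (x + z) := by
      have h0 : p.coeff x * p.coeff (x + z - x) ≤ (p * p).coeff (x + z) := by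
        rw [coeff_mul_apply]
        unfold Finsupp.sum
        exact Finset.single_le_sum (f := fun y => p.coeff y * p.coeff (x + z - y))
          (fun y _ => mul_nonneg (hp.1 _) (hp.1 _)) hx
      have h1 : x + z - x = z := by ring
      rw [h1] at h0
      exact lt_of_lt_of_le (mul_pos hpx hpz) h0
    have hgx : 0 ≤ g x := by
      have h1 : p.coeff x ≤ p.coeff ((x + 1) / 2) := hmono _ _ (by omega) (by omega)
      have := Real.log_le_log hpx h1
      simp only [hg]; linarith
    have hgz : 0 ≤ g z := by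
      have h1 : p.coeff z ≤ p.coeff ((z + 1) / 2) := hmono _ _ (by omega) (by omega)
      have := Real.log_le_log hpz h1
      simp only [hg]; linarith
    -- symmetric statement
    have key : ∀ m M : ℤ, 0 ≤ m → m ≤ M → x + z = m + M → 0 < p.coeff M →
        -Real.log ((p * p).coeff (x + z)) ≥ -Real.log 2 - g M - Real.log (p.coeff M) := by
      intro m M hm hmM hsum hM
      have h1 := conv_le hp hmono hneg (x + z) ((x + z + 1) / 2) (by omega) (by omega)
      have h2 : p.coeff ((x + z + 1) / 2) ≤ p.coeff ((M + 1) / 2) :=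
        hmono _ _ (by omega) (by omega)
      have h3 : (p * p).coeff (x + z) ≤ 2 * p.coeff ((M + 1) / 2) := by linarith
      have h4 : 0 < p.coeff ((M + 1) / 2) := by linarith
      have h5 := Real.log_le_log hpos h3
      rw [Real.log_mul (by norm_num) h4.ne'] at h5
      simp only [hg]
      linarith
    rcases le_total x z with hxz | hxz
    · have h1 := key x z hx0 hxz rfl hpz
      have h2 : Real.log (p.coeff z) ≤ Real.log (p.coeff x) :=
        Real.log_le_log hpz (hmono x z hx0 hxz)
      rw [abs_of_nonneg (by linarith)]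
      linarith
    · have h1 := key z x hz0 hxz (by ring) hpx
      have h2 : Real.log (p.coeff x) ≤ Real.log (p.coeff z) :=
        Real.log_le_log hpx (hmono z x hz0 hxz)
      rw [abs_of_nonpos (by linarith)]
      linarith
  have hmain : ∑ x ∈ S, ∑ z ∈ S, p.coeff x * p.coeff z *
      (|Real.log (p.coeff x) - Real.log (p.coeff z)| / 2 - Real.log 2 - (g x + g z)) ≤
      ∑ x ∈ S, ∑ z ∈ S, p.coeff x * p.coeff z *
      (-Real.log ((p * p).coeff (x + z)) -
        (-Real.log (p.coeff x) / 2 - Real.log (p.coeff z) / 2)) := by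
    apply Finset.sum_le_sum
    intro x hx
    apply Finset.sum_le_sum
    intro z hz
    exact mul_le_mul_of_nonneg_left (hpt x hx z hz) (mul_nonneg (hp.1 _) (hp.1 _))
  have hR : ∑ x ∈ S, ∑ z ∈ S, p.coeff x * p.coeff z *
      (-Real.log ((p * p).coeff (x + z)) -
        (-Real.log (p.coeff x) / 2 - Real.log (p.coeff z) / 2)) = H (p * p) - H p := by
    rw [hHH, hH1, ← Finset.sum_sub_distrib]
    apply Finset.sum_congr rfl
    intro x _
    rw [← Finset.sum_sub_distrib]
    apply Finset.sum_congr rfl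
    intro z _
    ring
  have hL : ∑ x ∈ S, ∑ z ∈ S, p.coeff x * p.coeff z *
      (|Real.log (p.coeff x) - Real.log (p.coeff z)| / 2 - Real.log 2 - (g x + g z)) =
      Dl p / 2 - Real.log 2 - ∑ x ∈ S, ∑ z ∈ S, p.coeff x * p.coeff z * (g x + g z) := by
    have e1 : Dl p / 2 = ∑ x ∈ S, ∑ z ∈ S, p.coeff x * p.coeff z *
        (|Real.log (p.coeff x) - Real.log (p.coeff z)| / 2) := by
      unfold Dl
      rw [Finset.sum_div]
      apply Finset.sum_congr rfl
      intro x _
      rw [Finset.sum_div]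
      apply Finset.sum_congr rfl
      intro z _
      ring
    have e2 : Real.log 2 = ∑ x ∈ S, ∑ z ∈ S, p.coeff x * p.coeff z * Real.log 2 := by
      have : ∀ x ∈ S, ∑ z ∈ S, p.coeff x * p.coeff z * Real.log 2 = p.coeff x * Real.log 2 := by
        intro x _
        rw [← Finset.sum_mul, ← Finset.mul_sum, hsum1, mul_one]
      rw [Finset.sum_congr rfl this, ← Finset.sum_mul, hsum1, one_mul]
    rw [e1]
    conv_rhs => rw [e2]
    rw [← Finset.sum_sub_distrib, ← Finset.sum_sub_distrib]
    apply Finset.sum_congr rfl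
    intro x _
    rw [← Finset.sum_sub_distrib, ← Finset.sum_sub_distrib]
    apply Finset.sum_congr rfl
    intro z _
    ring
  rw [hL, hR] at hmain
  unfold sg
  linarith

end oneSided

/-! ### the weights -/

theorem sum_inv_sqrt (M : ℕ) : ∑ n ∈ Finset.range M, 1 / Real.sqrt ((n : ℝ) + 1) ≤
    2 * Real.sqrt M := by
  induction M with
  | zero => simp
  | succ M ih =>
    rw [Finset.sum_range_succ]
    have h1 : 0 ≤ Real.sqrt (M : ℝ) := Real.sqrt_nonneg _
    have h2 : 0 < Real.sqrt ((M : ℝ) + 1) := Real.sqrt_pos.mpr (by positivity)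
    have h3 : Real.sqrt (M : ℝ) ^ 2 = M := Real.sq_sqrt (by positivity)
    have h4 : Real.sqrt ((M : ℝ) + 1) ^ 2 = M + 1 := Real.sq_sqrt (by positivity)
    have h5 : 1 / Real.sqrt ((M : ℝ) + 1) ≤ 2 * (Real.sqrt ((M : ℝ) + 1) - Real.sqrt M) := by
      rw [div_le_iff₀ h2]
      nlinarith [sq_nonneg (Real.sqrt ((M : ℝ) + 1) - Real.sqrt M)]
    push_cast
    linarith

theorem sum_inv_sq (M N : ℕ) (hM : 1 ≤ M) :
    ∑ n ∈ Finset.Ico M N, 1 / ((n : ℝ) + 1) ^ 2 ≤ 1 / (M : ℝ) := by
  rcases le_or_gt N M with h | h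
  · rw [Finset.Ico_eq_empty (by omega)]
    simp
  have : ∑ n ∈ Finset.Ico M N, 1 / ((n : ℝ) + 1) ^ 2 ≤ 1 / (M : ℝ) - 1 / (N : ℝ) := by
    induction N, (le_of_lt h) using Nat.le_induction with
    | base => simp
    | succ N hN ih =>
      rcases Nat.eq_or_lt_of_le hN with h0 | h0
      · subst h0
        rw [Nat.Ico_succ_singleton, Finset.sum_singleton]
        have hMpos : (0 : ℝ) < M := by exact_mod_cast hM
        push_cast
        rw [div_sub_div _ _ hMpos.ne' (by positivity), div_le_div_iff₀ (by positivity) (by positivity)]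
        nlinarith
      · rw [Finset.sum_Ico_succ_top (by omega)]
        have hMpos : (0 : ℝ) < N := by
          have : 0 < N := by omega
          exact_mod_cast this
        have h5 : 1 / ((N : ℝ) + 1) ^ 2 ≤ 1 / (N : ℝ) - 1 / ((N : ℝ) + 1) := by
          rw [div_sub_div _ _ hMpos.ne' (by positivity),
            div_le_div_iff₀ (by positivity) (by positivity)]
          nlinarith
        have := ih h0
        push_cast
        linarith
  have h2 : (0 : ℝ) ≤ 1 / (N : ℝ) := by positivity
  linarith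

/-- the sum of the minimum of the two bounds -/
theorem sum_min_le {a : ℝ} (ha : 0 < a) (ha1 : a ≤ 1) (N : ℕ) (W : ℕ → ℝ)
    (h1 : ∀ n, W n ≤ Real.sqrt a / Real.sqrt ((n : ℝ) + 1))
    (h2 : ∀ n, W n ≤ 1 / (a * ((n : ℝ) + 1) ^ 2)) (h0 : ∀ n, 0 ≤ W n) :
    ∑ n ∈ Finset.range N, W n ≤ 4 := by
  set M := ⌊1 / a⌋₊ with hM
  have hinv : 1 ≤ 1 / a := by rw [le_div_iff₀ ha]; linarith
  have hM1 : 1 ≤ M := Nat.le_floor (by exact_mod_cast hinv)
  have hMle : (M : ℝ) ≤ 1 / a := Nat.floor_le (by positivity)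
  have hMlt : 1 / a < M + 1 := Nat.lt_floor_add_one _
  have hMpos : (0 : ℝ) < M := by exact_mod_cast hM1
  have hM1' : (1 : ℝ) ≤ M := by exact_mod_cast hM1
  have e1 : ∑ n ∈ Finset.range N, W n ≤ ∑ n ∈ Finset.range (max M N), W n :=
    Finset.sum_le_sum_of_subset_of_nonneg (Finset.range_subset_range.mpr (le_max_right _ _))
      fun n _ _ => h0 n
  have e2 : ∑ n ∈ Finset.range (max M N), W n =
      ∑ n ∈ Finset.range M, W n + ∑ n ∈ Finset.Ico M (max M N), W n := by
    rw [Finset.sum_range_add_sum_Ico _ (le_max_left _ _)]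
  have e3 : ∑ n ∈ Finset.range M, W n ≤ 2 := by
    calc ∑ n ∈ Finset.range M, W n ≤ ∑ n ∈ Finset.range M, Real.sqrt a / Real.sqrt ((n : ℝ) + 1) :=
          Finset.sum_le_sum fun n _ => h1 n
      _ = Real.sqrt a * ∑ n ∈ Finset.range M, 1 / Real.sqrt ((n : ℝ) + 1) := by
          rw [Finset.mul_sum]
          apply Finset.sum_congr rfl
          intro n _; ring
      _ ≤ Real.sqrt a * (2 * Real.sqrt M) :=
          mul_le_mul_of_nonneg_left (sum_inv_sqrt M) (Real.sqrt_nonneg _)
      _ ≤ Real.sqrt a * (2 * Real.sqrt (1 / a)) := by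
          apply mul_le_mul_of_nonneg_left _ (Real.sqrt_nonneg _)
          have := Real.sqrt_le_sqrt hMle
          linarith
      _ = 2 := by
          have : Real.sqrt a * Real.sqrt (1 / a) = 1 := by
            rw [← Real.sqrt_mul ha.le, mul_one_div_cancel ha.ne', Real.sqrt_one]
          linarith
  have e4 : ∑ n ∈ Finset.Ico M (max M N), W n ≤ 2 := by
    calc ∑ n ∈ Finset.Ico M (max M N), W n
        ≤ ∑ n ∈ Finset.Ico M (max M N), 1 / (a * ((n : ℝ) + 1) ^ 2) :=
          Finset.sum_le_sum fun n _ => h2 n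
      _ = 1 / a * ∑ n ∈ Finset.Ico M (max M N), 1 / ((n : ℝ) + 1) ^ 2 := by
          rw [Finset.mul_sum]
          apply Finset.sum_congr rfl
          intro n _
          rw [one_div_mul_one_div]
      _ ≤ 1 / a * (1 / (M : ℝ)) :=
          mul_le_mul_of_nonneg_left (sum_inv_sq M _ hM1) (by positivity)
      _ ≤ ((M : ℝ) + 1) * (1 / (M : ℝ)) := mul_le_mul_of_nonneg_right hMlt.le (by positivity)
      _ ≤ 2 := by
          rw [mul_one_div, div_le_iff₀ hMpos]
          linarith
  linarith

/-- the weight -/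
noncomputable def wt (a b n : ℝ) : ℝ :=
  Real.sqrt b / Real.sqrt n * Real.exp (-|Real.log b - Real.log a|)

theorem exp_abs_log {a b : ℝ} (ha : 0 < a) (hb : 0 < b) (hab : a ≤ b) :
    Real.exp (-|Real.log b - Real.log a|) = a / b := by
  have h1 : Real.log a ≤ Real.log b := Real.log_le_log ha hab
  rw [abs_of_nonneg (by linarith)]
  have : -(Real.log b - Real.log a) = Real.log (a / b) := by
    rw [Real.log_div ha.ne' hb.ne']; ring
  rw [this, Real.exp_log (div_pos ha hb)]

theorem wt_le_one {a b n : ℝ} (ha : 0 < a) (hb : 0 < b) (hn : 0 < n) :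
    wt a b n ≤ Real.sqrt a / Real.sqrt n := by
  unfold wt
  have hsn := Real.sqrt_pos.mpr hn
  have hsa := Real.sqrt_pos.mpr ha
  have hsb := Real.sqrt_pos.mpr hb
  have ea : Real.sqrt a ^ 2 = a := Real.sq_sqrt ha.le
  have eb : Real.sqrt b ^ 2 = b := Real.sq_sqrt hb.le
  rw [div_mul_eq_mul_div]
  apply div_le_div_of_nonneg_right _ hsn.le
  rcases le_total a b with h | h
  · rw [exp_abs_log ha hb h]
    have hs := Real.sqrt_le_sqrt h
    have : Real.sqrt b * (a / b) = Real.sqrt a * (Real.sqrt a / Real.sqrt b) := by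
      rw [← ea, ← eb]
      rw [Real.sqrt_sq hsa.le, Real.sqrt_sq hsb.le]
      field_simp
    rw [this]
    calc Real.sqrt a * (Real.sqrt a / Real.sqrt b) ≤ Real.sqrt a * 1 := by
          apply mul_le_mul_of_nonneg_left _ hsa.le
          rw [div_le_one hsb]; exact hs
      _ = _ := mul_one _
  · rw [abs_sub_comm, exp_abs_log hb ha h]
    have hs := Real.sqrt_le_sqrt h
    calc Real.sqrt b * (b / a) ≤ Real.sqrt a * 1 := by
          apply mul_le_mul hs _ (by positivity) hsa.le
          rw [div_le_one ha]; exact h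
      _ = _ := mul_one _

theorem wt_le_two {a b n : ℝ} (ha : 0 < a) (hb : 0 < b) (hn : 0 < n) (hnb : n * b ≤ 1) :
    wt a b n ≤ 1 / (a * n ^ 2) := by
  unfold wt
  have hsn := Real.sqrt_pos.mpr hn
  have hsb := Real.sqrt_pos.mpr hb
  have en : Real.sqrt n ^ 2 = n := Real.sq_sqrt hn.le
  have eb : Real.sqrt b ^ 2 = b := Real.sq_sqrt hb.le
  set u := Real.sqrt n with hu
  set v := Real.sqrt b with hv
  have huv : u * v ≤ 1 := by
    have h1 : (u * v) ^ 2 ≤ 1 ^ 2 := by
      rw [mul_pow, en, eb]; linarith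
    exact le_of_sq_le_sq h1 (by norm_num)
  have huv0 : 0 < u * v := mul_pos hsn hsb
  rw [le_div_iff₀ (by positivity)]
  rcases le_total a b with h | h
  · rw [exp_abs_log ha hb h]
    have hstep : v / u * (a / b) * (a * n ^ 2) = (a * n) ^ 2 / (u * v) := by
      rw [← en, ← eb]
      field_simp
    rw [hstep, div_le_one huv0]
    have h2 : a * n ≤ (u * v) ^ 2 := by
      rw [mul_pow, en, eb]; nlinarith
    have h3 : (u * v) ^ 2 ≤ u * v := by nlinarith
    have h4 : 0 < a * n := mul_pos ha hn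
    nlinarith
  · rw [abs_sub_comm, exp_abs_log hb ha h]
    have hstep : v / u * (b / a) * (a * n ^ 2) = (u * v) ^ 3 := by
      rw [← en, ← eb]
      field_simp
    rw [hstep]
    exact pow_le_one₀ huv0.le huv

section oneSided2

variable {p : AddMonoidAlgebra ℝ ℤ} (hp : Law p)
  (hmono : ∀ s t : ℤ, 0 ≤ s → s ≤ t → p.coeff t ≤ p.coeff s)
  (hneg : ∀ t : ℤ, t < 0 → p.coeff t = 0)

include hp hmono hneg in
theorem sum_wt_le {a : ℝ} (ha : 0 < a) (ha1 : a ≤ 1) :
    ∑ x ∈ p.coeff.support, wt a (p.coeff x) (|(x : ℝ)| + 1) ≤ 4 := by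
  classical
  set S := p.coeff.support with hS
  have hS0 : ∀ x ∈ S, 0 ≤ x := by
    intro x hx
    by_contra hc
    exact Finsupp.mem_support_iff.mp hx (hneg x (by omega))
  set W : ℕ → ℝ := fun n => if ((n : ℤ)) ∈ S then wt a (p.coeff n) ((n : ℝ) + 1) else 0 with hW
  have hinj : Set.InjOn (fun x : ℤ => x.toNat) S := by
    intro x hx y hy hxy
    have h1 := hS0 x hx
    have h2 := hS0 y hy
    simp only at hxy
    omega
  have e1 : ∑ x ∈ S, wt a (p.coeff x) (|(x : ℝ)| + 1) = ∑ x ∈ S, W x.toNat := by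
    apply Finset.sum_congr rfl
    intro x hx
    have h0 := hS0 x hx
    have h1 : ((x.toNat : ℕ) : ℤ) = x := Int.toNat_of_nonneg h0
    simp only [hW]
    rw [h1, if_pos hx]
    have h2 : |(x : ℝ)| = ((x.toNat : ℕ) : ℝ) := by
      rw [abs_of_nonneg (by exact_mod_cast h0)]
      exact_mod_cast h1.symm
    rw [h2]
  have e2 : ∑ x ∈ S, W x.toNat = ∑ n ∈ S.image (fun x : ℤ => x.toNat), W n := by
    rw [Finset.sum_image hinj]
  have hb : ∀ n, 0 ≤ W n := by
    intro n
    simp only [hW]
    split_ifs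
    · unfold wt; positivity
    · exact le_rfl
  obtain ⟨N, hN⟩ : ∃ N, S.image (fun x : ℤ => x.toNat) ⊆ Finset.range N :=
    ⟨(S.image (fun x : ℤ => x.toNat)).sup id + 1, fun n hn => by
      rw [Finset.mem_range]
      have := Finset.le_sup (f := id) hn
      simp only [id] at this
      omega⟩
  rw [e1, e2]
  refine (Finset.sum_le_sum_of_subset_of_nonneg hN fun n _ _ => hb n).trans ?_
  apply sum_min_le ha ha1 N W _ _ hb
  · intro n
    simp only [hW]
    split_ifs with h
    · exact wt_le_one ha (hp.pos h) (by positivity)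
    · positivity
  · intro n
    simp only [hW]
    split_ifs with h
    · apply wt_le_two ha (hp.pos h) (by positivity)
      have := le_inv hp hmono (n : ℤ) (by positivity)
      exact_mod_cast this
    · positivity

include hp hmono hneg in
theorem LL_le_aux {a : ℝ} (ha : 0 < a) (ha1 : a ≤ 1) :
    LL p / 2 ≤ ∑ x ∈ p.coeff.support, p.coeff x * |Real.log (p.coeff x) - Real.log a| +
      Real.log 4 := by
  classical
  set S := p.coeff.support with hS
  have h1 : ∀ x ∈ S, p.coeff x * (Real.log (wt a (p.coeff x) (|(x : ℝ)| + 1)) -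
      Real.log (p.coeff x) - Real.log 4) ≤ wt a (p.coeff x) (|(x : ℝ)| + 1) / 4 - p.coeff x := by
    intro x hx
    have hpos := hp.pos hx
    have hn : (0 : ℝ) < |(x : ℝ)| + 1 := by positivity
    have hw : 0 < wt a (p.coeff x) (|(x : ℝ)| + 1) := by
      unfold wt
      have := Real.sqrt_pos.mpr hpos
      have := Real.sqrt_pos.mpr hn
      positivity
    have h2 := Real.log_le_sub_one_of_pos (div_pos (div_pos hw (by norm_num : (0:ℝ) < 4)) hpos)
    rw [Real.log_div (by positivity) hpos.ne', Real.log_div hw.ne' (by norm_num)] at h2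
    calc p.coeff x * (Real.log (wt a (p.coeff x) (|(x : ℝ)| + 1)) -
          Real.log (p.coeff x) - Real.log 4)
        ≤ p.coeff x * (wt a (p.coeff x) (|(x : ℝ)| + 1) / 4 / p.coeff x - 1) := by
          apply mul_le_mul_of_nonneg_left _ hpos.le
          linarith
      _ = _ := by field_simp
  have h2 := Finset.sum_le_sum h1
  rw [Finset.sum_sub_distrib, hp.sum_eq, ← Finset.sum_div] at h2
  have h3 := sum_wt_le hp hmono hneg ha ha1
  have h4 : ∑ x ∈ S, p.coeff x * (Real.log (wt a (p.coeff x) (|(x : ℝ)| + 1)) -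
      Real.log (p.coeff x) - Real.log 4) = LL p / 2 -
      ∑ x ∈ S, p.coeff x * |Real.log (p.coeff x) - Real.log a| - Real.log 4 := by
    have e1 : LL p / 2 = ∑ x ∈ S, p.coeff x *
        (-Real.log (p.coeff x) / 2 - Real.log (|(x : ℝ)| + 1) / 2) := by
      unfold LL EL
      rw [H_eq]
      unfold Finsupp.sum
      rw [← Finset.sum_sub_distrib, Finset.sum_div]
      apply Finset.sum_congr rfl
      intro x _
      ring
    have e2 : Real.log 4 = ∑ x ∈ S, p.coeff x * Real.log 4 := by
      rw [← Finset.sum_mul, hp.sum_eq, one_mul]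
    rw [e1]
    conv_rhs => rw [e2]
    rw [← Finset.sum_sub_distrib, ← Finset.sum_sub_distrib]
    apply Finset.sum_congr rfl
    intro x hx
    have hpos := hp.pos hx
    have hn : (0 : ℝ) < |(x : ℝ)| + 1 := by positivity
    have hsb := Real.sqrt_pos.mpr hpos
    have hsn := Real.sqrt_pos.mpr hn
    unfold wt
    rw [Real.log_mul (by positivity) (Real.exp_pos _).ne', Real.log_exp,
      Real.log_div hsb.ne' hsn.ne', Real.log_sqrt hpos.le, Real.log_sqrt hn.le]
    ring
  rw [h4] at h2
  linarith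

include hp hmono hneg in
theorem LL_le_one : LL p ≤ 4 * sg p + 14 := by
  classical
  set S := p.coeff.support with hS
  have h1 : ∀ z ∈ S, p.coeff z * (LL p / 2) ≤ p.coeff z *
      (∑ x ∈ S, p.coeff x * |Real.log (p.coeff x) - Real.log (p.coeff z)| + Real.log 4) := by
    intro z hz
    apply mul_le_mul_of_nonneg_left _ (hp.1 z)
    exact LL_le_aux hp hmono hneg (hp.pos hz) (hp.le_one z)
  have h2 := Finset.sum_le_sum h1
  rw [← Finset.sum_mul, hp.sum_eq, one_mul] at h2
  have h3 : ∑ z ∈ S, p.coeff z *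
      (∑ x ∈ S, p.coeff x * |Real.log (p.coeff x) - Real.log (p.coeff z)| + Real.log 4) =
      Dl p + Real.log 4 := by
    have e1 : ∀ z ∈ S, p.coeff z *
        (∑ x ∈ S, p.coeff x * |Real.log (p.coeff x) - Real.log (p.coeff z)| + Real.log 4) =
        ∑ x ∈ S, p.coeff x * p.coeff z * |Real.log (p.coeff x) - Real.log (p.coeff z)| +
        p.coeff z * Real.log 4 := by
      intro z _
      rw [mul_add, Finset.mul_sum]
      congr 1
      apply Finset.sum_congr rfl
      intro x _
      ring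
    rw [Finset.sum_congr rfl e1, Finset.sum_add_distrib, ← Finset.sum_mul, hp.sum_eq, one_mul,
      Finset.sum_comm]
    rfl
  rw [h3] at h2
  have h4 := sg_ge hp hmono hneg
  have h5 : Real.log 4 = 2 * Real.log 2 := by
    rw [show (4 : ℝ) = 2 ^ 2 by norm_num, Real.log_pow]; norm_num
  have h6 := Real.log_two_lt_d9
  linarith

end oneSided2

end Pool.Agent.R92.Star
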