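import Pool.Agent.H24.Lib.R_seed8.R92.Star.One

set_option autoImplicit false
set_option linter.unusedSectionVars false

/-! The inequality for two-sided unimodal laws. -/

namespace Pool.Agent.R92.Star

open H112 Finset

theorem law_nonneg {p : AddMonoidAlgebra ℝ ℤ} (hp : Law p) (t : ℤ) : 0 ≤ p.coeff t := hp.1 t

theorem law_le_one {p : AddMonoidAlgebra ℝ ℤ} (hp : Law p) (t : ℤ) : p.coeff t ≤ 1 :=
  IsLaw.le_one hp t

theorem negMulLog_mono {x y : ℝ} (hx : 0 ≤ x) (hxy : x ≤ y) (hy : y ≤ 1 / 3) :
    Real.negMulLog x ≤ Real.negMulLog y := by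
  rcases hx.eq_or_lt with h | h
  · rw [← h, Real.negMulLog_zero]
    exact Real.negMulLog_nonneg (by linarith) (by linarith)
  · have hy0 : 0 < y := lt_of_lt_of_le h hxy
    have h1 : Real.log y ≤ -1 := by
      rw [Real.log_le_iff_le_exp hy0]
      have h2 : Real.exp (-1) * Real.exp 1 = 1 := by rw [← Real.exp_add]; simp
      have h3 := Real.exp_one_lt_d9
      have h4 := Real.exp_pos (-1)
      nlinarith
    have h2 : Real.log y - Real.log x ≤ y / x - 1 := by
      rw [← Real.log_div hy0.ne' h.ne']
      exact Real.log_le_sub_one_of_pos (div_pos hy0 h)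
    have h3 : x * (Real.log y - Real.log x) ≤ y - x := by
      calc x * (Real.log y - Real.log x) ≤ x * (y / x - 1) := mul_le_mul_of_nonneg_left h2 h.le
        _ = y - x := by field_simp
    unfold Real.negMulLog
    nlinarith

theorem negMulLog_anti {x y : ℝ} (hx : 1 / 2 ≤ x) (hxy : x ≤ y) (hy0 : 3 / 4 ≤ y) (hy : y ≤ 1) :
    Real.negMulLog y ≤ Real.negMulLog x := by
  have hx0 : 0 < x := by linarith
  have hy0' : 0 < y := by linarith
  have h1 : 1 - 1 / y ≤ Real.log y := by
    have := Real.log_le_sub_one_of_pos (show 0 < 1 / y by positivity)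
    rw [Real.log_div one_ne_zero hy0'.ne', Real.log_one] at this
    linarith
  have h1' : -(1 / 3) ≤ Real.log y := by
    have : 1 / y ≤ 4 / 3 := by
      rw [div_le_div_iff₀ hy0' (by norm_num)]; linarith
    linarith
  have h2 : 1 - x / y ≤ Real.log y - Real.log x := by
    have := Real.log_le_sub_one_of_pos (div_pos hx0 hy0')
    rw [Real.log_div hx0.ne' hy0'.ne'] at this
    linarith
  have h3 : 1 / 2 ≤ x / y := by
    rw [le_div_iff₀ hy0']; linarith
  have h4 : x / y * y = x := by field_simp
  -- y log y - x log x = (y - x) log y + x (log y - log x) ≥ (y - x) log y + x (1 - x / y)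
  unfold Real.negMulLog
  have h5 : x * (1 - x / y) ≤ x * (Real.log y - Real.log x) := mul_le_mul_of_nonneg_left h2 hx0.le
  have h6 : x * (1 - x / y) = (y - x) * (x / y) := by
    field_simp
  have h7 : (y - x) * (-(1 / 3)) ≤ (y - x) * Real.log y :=
    mul_le_mul_of_nonneg_left h1' (by linarith)
  have h8 : (y - x) * (1 / 2) ≤ (y - x) * (x / y) := mul_le_mul_of_nonneg_left h3 (by linarith)
  nlinarith

section

variable {p : AddMonoidAlgebra ℝ ℤ} (hp : Law p) (hu : Uni p)

include hu in
theorem le_zero (t : ℤ) : p.coeff t ≤ p.coeff 0 := by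
  rcases le_total 0 t with h | h
  · exact hu.1 0 t le_rfl h
  · exact hu.2 0 t h le_rfl

include hp in
theorem conv_ge (t : ℤ) (ht : t ≠ 0) : 2 * p.coeff 0 * p.coeff t ≤ (p * p).coeff t := by
  classical
  by_cases h0 : p.coeff 0 = 0
  · rw [h0]
    have := law_nonneg (hp.mul hp) t
    linarith
  by_cases h1 : p.coeff t = 0
  · rw [h1]
    have := law_nonneg (hp.mul hp) t
    linarith
  rw [coeff_mul_apply]
  unfold Finsupp.sum
  have hsub : ({0, t} : Finset ℤ) ⊆ p.coeff.support := by
    intro y hy
    rw [Finset.mem_insert, Finset.mem_singleton] at hy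
    rcases hy with h | h
    · rw [h]; exact Finsupp.mem_support_iff.mpr h0
    · rw [h]; exact Finsupp.mem_support_iff.mpr h1
  have h2 := Finset.sum_le_sum_of_subset_of_nonneg (f := fun x => p.coeff x * p.coeff (t - x)) hsub
    (fun x _ _ => mul_nonneg (hp.1 _) (hp.1 _))
  rw [Finset.sum_pair ht.symm] at h2
  simp only [sub_zero, sub_self] at h2
  linarith

include hp hu in
theorem small_case (h0 : 7 / 8 ≤ p.coeff 0) : LL p ≤ 27 * sg p := by
  classical
  set S := (p * p).coeff.support ∪ p.coeff.support with hS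
  have hr := hp.mul hp
  have hp01 := law_le_one hp 0
  have h0S : (0 : ℤ) ∈ S := by
    rw [hS, Finset.mem_union]
    right
    rw [Finsupp.mem_support_iff]
    intro h; rw [h] at h0; norm_num at h0
  have hH : H p = ∑ t ∈ S, Real.negMulLog (p.coeff t) := H_eq_of Finset.subset_union_right
  have hHH : H (p * p) = ∑ t ∈ S, Real.negMulLog ((p * p).coeff t) :=
    H_eq_of Finset.subset_union_left
  rw [← Finset.add_sum_erase _ _ h0S] at hH hHH
  have hmass : ∑ t ∈ S.erase 0, p.coeff t = 1 - p.coeff 0 := by
    have h1 : ∑ t ∈ S, p.coeff t = 1 := by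
      rw [← hp.sum_eq]
      symm
      apply Finset.sum_subset Finset.subset_union_right
      intro x _ hx
      exact Finsupp.notMem_support_iff.mp hx
    rw [← Finset.add_sum_erase _ _ h0S] at h1
    linarith
  set ε := 1 - p.coeff 0 with hε
  set T := ∑ t ∈ S.erase 0, Real.negMulLog (p.coeff t) with hT
  have hsmall : ∀ t, t ≠ 0 → p.coeff t ≤ ε := by
    intro t ht
    have := sum_inj_le hp {0, t} id Function.injective_id.injOn
    rw [Finset.sum_pair ht.symm] at this
    simp only [id] at this
    linarith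
  have hTge : 2 * ε ≤ T := by
    rw [hT, ← hmass, Finset.mul_sum]
    apply Finset.sum_le_sum
    intro t ht
    have ht0 : t ≠ 0 := Finset.ne_of_mem_erase ht
    have h1 := hsmall t ht0
    have h2 := law_nonneg hp t
    rcases h2.eq_or_lt with h | h
    · rw [← h, Real.negMulLog_zero]; norm_num
    · have h3 : Real.log (p.coeff t) ≤ -2 := by
        rw [Real.log_le_iff_le_exp h]
        have h4 : Real.exp (-2) * Real.exp 1 * Real.exp 1 = 1 := by
          rw [← Real.exp_add, ← Real.exp_add]; norm_num
        have h5 := Real.exp_one_lt_d9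
        have h6 := Real.exp_pos (-2)
        have h7 := Real.exp_pos 1
        have h8 : Real.exp 1 * Real.exp 1 ≤ 7.4 := by nlinarith
        nlinarith
      unfold Real.negMulLog
      nlinarith
  have hrt : ∀ t ∈ S.erase 0, 2 * p.coeff 0 * Real.negMulLog (p.coeff t) -
      1.3863 * p.coeff t ≤ Real.negMulLog ((p * p).coeff t) := by
    intro t ht
    have ht0 : t ≠ 0 := Finset.ne_of_mem_erase ht
    have h1 := conv_ge hp t ht0
    have h2 : (p * p).coeff 0 + (p * p).coeff t ≤ 1 := by
      have := sum_inj_le hr {0, t} id Function.injective_id.injOn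
      rw [Finset.sum_pair ht0.symm] at this
      simpa only [id] using this
    have h3 : p.coeff 0 * p.coeff 0 ≤ (p * p).coeff 0 := by
      rw [coeff_mul_apply]
      unfold Finsupp.sum
      have hm : (0 : ℤ) ∈ p.coeff.support := by
        rw [Finsupp.mem_support_iff]
        intro h; rw [h] at h0; norm_num at h0
      have := Finset.single_le_sum (f := fun x => p.coeff x * p.coeff (0 - x))
        (fun x _ => mul_nonneg (hp.1 _) (hp.1 _)) hm
      simpa using this
    have h4 : (p * p).coeff t ≤ 1 / 3 := by nlinarith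
    have h5 := law_nonneg hp t
    have h6 := negMulLog_mono (by positivity) h1 h4
    refine le_trans ?_ h6
    rw [Real.negMulLog_mul]
    have h7 : Real.negMulLog (2 * p.coeff 0) ≥ -1.3863 := by
      unfold Real.negMulLog
      have h8 : Real.log (2 * p.coeff 0) ≤ Real.log 2 :=
        Real.log_le_log (by linarith) (by linarith)
      have h9 : 0 ≤ Real.log (2 * p.coeff 0) := Real.log_nonneg (by linarith)
      have h10 := Real.log_two_lt_d9
      nlinarith
    nlinarith
  have hsum := Finset.sum_le_sum hrt
  rw [Finset.sum_sub_distrib, ← Finset.mul_sum, ← Finset.mul_sum, hmass, ← hT] at hsum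
  have hr0 : Real.negMulLog (p.coeff 0) ≤ Real.negMulLog ((p * p).coeff 0) := by
    have h3 : p.coeff 0 * p.coeff 0 ≤ (p * p).coeff 0 := by
      rw [coeff_mul_apply]
      unfold Finsupp.sum
      have hm : (0 : ℤ) ∈ p.coeff.support := by
        rw [Finsupp.mem_support_iff]
        intro h; rw [h] at h0; norm_num at h0
      have := Finset.single_le_sum (f := fun x => p.coeff x * p.coeff (0 - x))
        (fun x _ => mul_nonneg (hp.1 _) (hp.1 _)) hm
      simpa using this
    have h4 : (p * p).coeff 0 ≤ p.coeff 0 := by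
      rw [coeff_mul_apply]
      unfold Finsupp.sum
      calc ∑ x ∈ p.coeff.support, p.coeff x * p.coeff (0 - x)
          ≤ ∑ x ∈ p.coeff.support, p.coeff x * p.coeff 0 :=
            Finset.sum_le_sum fun x _ => mul_le_mul_of_nonneg_left (le_zero hu _) (hp.1 _)
        _ = p.coeff 0 := by rw [← Finset.sum_mul, hp.sum_eq, one_mul]
    apply negMulLog_anti _ h4 (by linarith) hp01
    nlinarith
  have hn0 : Real.negMulLog (p.coeff 0) ≤ ε := by
    unfold Real.negMulLog
    have h1 : 1 - 1 / p.coeff 0 ≤ Real.log (p.coeff 0) := by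
      have := Real.log_le_sub_one_of_pos (show 0 < 1 / p.coeff 0 by
        apply div_pos one_pos; linarith)
      rw [Real.log_div one_ne_zero (by linarith), Real.log_one] at this
      linarith
    have h2 : p.coeff 0 * (1 - 1 / p.coeff 0) ≤ p.coeff 0 * Real.log (p.coeff 0) :=
      mul_le_mul_of_nonneg_left h1 (by linarith)
    have h3 : p.coeff 0 * (1 - 1 / p.coeff 0) = p.coeff 0 - 1 := by
      have : p.coeff 0 ≠ 0 := by linarith
      field_simp
    linarith
  have hEL := EL_nonneg hp
  have hε0 : 0 ≤ ε := by rw [hε]; linarith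
  have hT0 : 0 ≤ T := by linarith
  unfold LL sg
  nlinarith

end

end Pool.Agent.R92.Star
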